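import Pool.Agent.R929.OE.Low

/-!
# The basic inequality
-/

open scoped ComplexConjugate Topology

namespace Pool.Agent.R929.OE

open Module Finset Pool.Agent.TH125.Tw Pool.Agent.R929.OD
open Pool.Agent.R929.DH (IsHerm semi_sub exists_max_sub)

variable {n : ℕ} {X : Twisted n} {L : Module.End ℂ X.H}

/-- One step in the proof of the nondegeneracy. -/
theorem step_zero (hL : DefectFour X L) {a b s₀ κ : ℕ} (hn : a + b + 2 * s₀ + κ = n) {r : ℕ}
    (hr : r + 1 ≤ s₀) {u y' : X.H} (hu : u ∈ X.piece (a + r) (b + r)) (hy' : y' ∈ X.low a b r)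
    (h : ∀ x ∈ X.low (a + (s₀ + 1)) (b + (s₀ + 1)) (s₀ + κ), hf X L κ x (u + y') = 0) :
    (L ^ κ) u = 0 := by
  have h1 : ∀ x ∈ X.piece (a + (2 * s₀ - r)) (b + (2 * s₀ - r)), hf X L κ x u = 0 := by
    intro x hx
    have hx' : x ∈ X.low (a + (s₀ + 1)) (b + (s₀ + 1)) (s₀ + κ) := by
      refine X.piece_le_low (s := s₀ - 1 - r) (by omega) ?_
      have e1 : a + (s₀ + 1) + (s₀ - 1 - r) = a + (2 * s₀ - r) := by omega
      have e2 : b + (s₀ + 1) + (s₀ - 1 - r) = b + (2 * s₀ - r) := by omega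
      rw [e1, e2]
      exact hx
    have h2 := h x hx'
    rw [hf_add_right] at h2
    have h3 : hf X L κ x y' = 0 := hf_low_zero hL.cup
      (a := a + (2 * s₀ - r)) (b := b + (2 * s₀ - r)) (r := 1) (c := a) (d := b) (t := r)
      (fun s hs s' hs' => by omega) (mem_low_one hx) hy'
    rwa [h3, add_zero] at h2
  refine X.form_nondeg _ fun y => ?_
  refine X.ind (P := fun y => X.form ((L ^ κ) u) y = 0) (map_zero _) ?_ ?_ y
  · intro c d hc hd
    rw [map_add, hc, hd, add_zero]
  · intro p' q' y hy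
    by_cases hpq : (a + r + κ + q', b + r + κ + p') = (n, n)
    · have e1 := congrArg Prod.fst hpq
      have e2 := congrArg Prod.snd hpq
      simp only at e1 e2
      have e3 : p' = a + (2 * s₀ - r) := by omega
      have e4 : q' = b + (2 * s₀ - r) := by omega
      rw [e3, e4] at hy
      have h5 := h1 y hy
      rw [hf_hom hy] at h5
      have h6 := (mul_eq_zero.mp h5).resolve_left (pow_ne_zero _ Complex.I_ne_zero)
      rw [X.form_swap hy (pow_mem hL.cup hu κ), h6, map_zero, mul_zero]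
    · exact X.form_zero (pow_mem hL.cup hu κ) hy hpq

/-- Nondegeneracy of the pairing of the lower with the upper part. -/
theorem low_nondeg (hL : DefectFour X L) {a b s₀ κ : ℕ} (hn : a + b + 2 * s₀ + κ = n) :
    ∀ r, r + 1 ≤ s₀ → ∀ y ∈ X.low a b r,
      (∀ x ∈ X.low (a + (s₀ + 1)) (b + (s₀ + 1)) (s₀ + κ), hf X L κ x y = 0) → y = 0 := by
  intro r
  induction r with
  | zero =>
    intro _ y hy _
    rw [X.low_zero] at hy
    exact (Submodule.mem_bot ℂ).1 hy
  | succ r ih =>
    intro hr y hy h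
    rw [X.low_succ] at hy
    obtain ⟨u, hu, y', hy', rfl⟩ := Submodule.mem_sup.1 hy
    have hu0 : u = 0 := by
      have h4 := step_zero hL hn (by omega) hu hy' h
      refine hL.inj (a + r) (b + r) (κ + 2 * (s₀ - r - 2)) (by omega) u hu ?_
      rw [add_comm κ, pow_add, Module.End.mul_apply, h4, map_zero]
    rw [hu0, zero_add]
    refine ih (by omega) y' hy' fun x hx => ?_
    have h7 := h x hx
    rwa [hu0, zero_add] at h7

theorem low_kernel (hL : DefectFour X L) {a b s₀ κ : ℕ} (hn : a + b + 2 * s₀ + κ = n)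
    {y : X.H} (hy : y ∈ X.low a b s₀)
    (h : ∀ x ∈ X.low (a + (s₀ + 1)) (b + (s₀ + 1)) (s₀ + κ), hf X L κ x y = 0) :
    y ∈ killedBelow X L (a + s₀) (b + s₀) κ := by
  rcases s₀ with _ | s
  · rw [X.low_zero, Submodule.mem_bot] at hy
    rw [hy]
    exact Submodule.zero_mem _
  · rw [X.low_succ] at hy
    obtain ⟨u, hu, y', hy', rfl⟩ := Submodule.mem_sup.1 hy
    have h4 := step_zero hL hn le_rfl hu hy' h
    have h5 : y' = 0 := by
      refine low_nondeg hL hn s le_rfl y' hy' fun x hx => ?_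
      have h6 := h x hx
      rwa [hf_add_right, hf_right_zero h4, zero_add] at h6
    rw [h5, add_zero]
    exact mem_killed.2 ⟨hu, h4⟩

theorem below_low {a b s₀ κ : ℕ} (hab : a = 0 ∨ b = 0) :
    killedBelow X L (a + s₀) (b + s₀) κ ≤ X.low a b s₀ := by
  rcases s₀ with _ | s
  · have h : killedBelow X L (a + 0) (b + 0) κ = ⊥ := by
      rcases hab with rfl | rfl
      · rw [add_zero, add_zero]
        rfl
      · rcases a with _ | a
        · rfl
        · rfl
    rw [h]
    exact bot_le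
  · have h : killedBelow X L (a + (s + 1)) (b + (s + 1)) κ = killed X L (a + s) (b + s) κ := rfl
    rw [h]
    intro x hx
    exact X.piece_le_low (by omega) (mem_killed.1 hx).1

/-- The vectors in the upper part which are orthogonal to the lower part. -/
theorem exists_ker (hL : DefectFour X L) {a b s₀ κ : ℕ} (hab : a = 0 ∨ b = 0)
    (hn : a + b + 2 * s₀ + κ = n) :
    ∃ K : Submodule ℂ X.H, finrank ℂ K + finrank ℂ (X.low a b s₀) =
        finrank ℂ (X.low (a + (s₀ + 1)) (b + (s₀ + 1)) (s₀ + κ)) +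
          finrank ℂ (killedBelow X L (a + s₀) (b + s₀) κ) ∧
      ∀ x ∈ X.low (a + (s₀ + 1)) (b + (s₀ + 1)) (s₀ + κ),
        (∀ y ∈ X.low a b s₀, hf X L κ x y = 0) → x ∈ K := by
  let V := X.low (a + (s₀ + 1)) (b + (s₀ + 1)) (s₀ + κ)
  let B := killedBelow X L (a + s₀) (b + s₀) κ
  have hB : B ≤ X.low a b s₀ := below_low hab
  obtain ⟨C, hC⟩ := Submodule.exists_isCompl B
  let Z : Submodule ℂ X.H := X.low a b s₀ ⊓ C
  have hZB : ∀ y ∈ Z, y ∈ B → y = 0 := by
    intro y hy hyB
    have : y ∈ B ⊓ C := ⟨hyB, hy.2⟩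
    rwa [hC.inf_eq_bot, Submodule.mem_bot] at this
  have hdZ : finrank ℂ B + finrank ℂ Z = finrank ℂ (X.low a b s₀) := by
    have h1 : B ⊔ Z = X.low a b s₀ := by
      have : B ⊔ C ⊓ X.low a b s₀ = (B ⊔ C) ⊓ X.low a b s₀ := (sup_inf_assoc_of_le C hB).symm
      show B ⊔ X.low a b s₀ ⊓ C = X.low a b s₀
      rw [inf_comm, this, hC.sup_eq_top, top_inf_eq]
    have h2 : B ⊓ Z = ⊥ := by
      rw [eq_bot_iff]
      rintro x ⟨hx1, hx2⟩
      rw [hZB x hx2 hx1]
      exact Submodule.zero_mem _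
    have h3 := Submodule.finrank_sup_add_finrank_inf_eq B Z
    rw [h1, h2, finrank_bot, add_zero] at h3
    exact h3.symm
  let v := finBasis ℂ Z
  let T : V →ₗ[ℂ] (Fin (finrank ℂ Z) → ℂ) := LinearMap.pi fun i =>
    (((X.form.flip ((L ^ κ) (v i : X.H))) ∘ₗ X.dual) ∘ₗ V.subtype)
  have hT : ∀ x i, T x i = hf X L κ (x : X.H) (v i : X.H) := fun x i => rfl
  have hsurj : LinearMap.range T = ⊤ := by
    by_contra hne
    obtain ⟨f, hf0, hf1⟩ := Submodule.exists_le_ker_of_lt_top (LinearMap.range T)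
      (lt_top_iff_ne_top.2 hne)
    let c : Fin (finrank ℂ Z) → ℂ := fun i => f (Pi.single i 1)
    have hfc : ∀ z, f z = ∑ i, z i * c i := by
      intro z
      conv_lhs => rw [pi_eq_sum_univ' z]
      rw [map_sum]
      refine Finset.sum_congr rfl fun i _ => ?_
      rw [map_smul, smul_eq_mul]
    let y : X.H := ∑ i, conj (c i) • (v i : X.H)
    have hy : y ∈ Z := Submodule.sum_mem _ fun i _ => Submodule.smul_mem _ _ (v i).2
    have hy2 : ∀ x ∈ V, hf X L κ x y = 0 := by
      intro x hx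
      have h1 : hf X L κ x y = ∑ i, c i * hf X L κ x (v i : X.H) := by
        have h2 : ∀ s : Finset (Fin (finrank ℂ Z)),
            hf X L κ x (∑ i ∈ s, conj (c i) • (v i : X.H)) =
              ∑ i ∈ s, c i * hf X L κ x (v i : X.H) := by
          intro s
          induction s using Finset.cons_induction with
          | empty =>
            have := hf_smul_right (X := X) (w := L) (k := κ) 0 x 0
            simpa using this
          | cons a s ha ih =>
            rw [Finset.sum_cons, Finset.sum_cons, hf_add_right, hf_smul_right, ih,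
              Complex.conj_conj]
        exact h2 Finset.univ
      have h3 : f (T ⟨x, hx⟩) = 0 := hf1 ⟨⟨x, hx⟩, rfl⟩
      rw [hfc] at h3
      rw [h1, ← h3]
      refine Finset.sum_congr rfl fun i _ => ?_
      rw [hT, mul_comm]
    have hy0 : y = 0 := hZB y hy (low_kernel hL hn hy.1 hy2)
    have hc0 : ∀ i, conj (c i) = 0 := by
      have h4 : ∑ i, conj (c i) • v i = 0 := by
        refine Subtype.ext ?_
        rw [Submodule.coe_zero, ← hy0]
        push_cast
        rfl
      exact fun i => Fintype.linearIndependent_iff.1 v.linearIndependent _ h4 i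
    apply hf0
    refine LinearMap.ext fun z => ?_
    rw [hfc, LinearMap.zero_apply]
    refine Finset.sum_eq_zero fun i _ => ?_
    have h5 := hc0 i
    rw [map_eq_zero] at h5
    rw [h5, mul_zero]
  have h1 := LinearMap.finrank_range_add_finrank_ker T
  rw [hsurj, finrank_top, Module.finrank_fin_fun] at h1
  refine ⟨(LinearMap.ker T).map V.subtype, ?_, ?_⟩
  · rw [Submodule.finrank_map_subtype_eq]
    show finrank ℂ (LinearMap.ker T) + finrank ℂ (X.low a b s₀) = finrank ℂ V + finrank ℂ B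
    omega
  · intro x hx h
    refine ⟨⟨x, hx⟩, ?_, rfl⟩
    rw [SetLike.mem_coe, LinearMap.mem_ker]
    funext i
    rw [hT]
    exact h _ (v i).2.1

/-- The dimension of the nonnegative subspace. -/
theorem finrank_big {a b s₀ κ m : ℕ} {M : Submodule ℂ X.H} (hab : a = 0 ∨ b = 0)
    (hM : M ≤ X.piece (a + s₀) (b + s₀)) :
    finrank ℂ (X.low (a + (s₀ + 1)) (b + (s₀ + 1)) m ⊔ M ⊔
        killedBelow X L (a + s₀) (b + s₀) κ : Submodule ℂ X.H) =
      finrank ℂ (X.low (a + (s₀ + 1)) (b + (s₀ + 1)) m) + finrank ℂ M +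
        finrank ℂ (killedBelow X L (a + s₀) (b + s₀) κ) := by
  have hd : (X.low (a + (s₀ + 1)) (b + (s₀ + 1)) m ⊔ M) ⊓
      killedBelow X L (a + s₀) (b + s₀) κ = ⊥ := by
    rcases s₀ with _ | s
    · have h : killedBelow X L (a + 0) (b + 0) κ = ⊥ := by
        have h1 := below_low (X := X) (L := L) (κ := κ) (s₀ := 0) hab
        rw [X.low_zero, le_bot_iff] at h1
        exact h1
      rw [h, inf_bot_eq]
    · have h1 : killedBelow X L (a + (s + 1)) (b + (s + 1)) κ ≤ X.piece (a + s) (b + s) := by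
        intro x hx
        exact (mem_killed.1 (show x ∈ killed X L (a + s) (b + s) κ from hx)).1
      have h2 := disj_mid (X := X) (m := m + 1) h1
      have h3 : X.low (a + (s + 1 + 1)) (b + (s + 1 + 1)) m ⊔ M ≤
          X.low (a + (s + 1)) (b + (s + 1)) (m + 1) := by
        refine sup_le (low_le fun t ht x hx => ?_) (hM.trans ?_)
        · refine X.piece_le_low (s := t + 1) (by omega) ?_
          rw [show a + (s + 1) + (t + 1) = a + (s + 1 + 1) + t by ring,
            show b + (s + 1) + (t + 1) = b + (s + 1 + 1) + t by ring]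
          exact hx
        · exact fun x hx => X.piece_le_low (s := 0) (by omega) (by simpa using hx)
      rw [eq_bot_iff, ← h2]
      exact inf_le_inf_right _ h3
  have h1 := Submodule.finrank_sup_add_finrank_inf_eq (X.low (a + (s₀ + 1)) (b + (s₀ + 1)) m ⊔ M)
    (killedBelow X L (a + s₀) (b + s₀) κ)
  rw [hd, finrank_bot, add_zero, finrank_up hM] at h1
  exact h1

theorem hf_below (hL : IsCupProduct X.toGradedForm L) {p q κ : ℕ} {z : X.H}
    (hz : z ∈ killedBelow X L p q κ) (x : X.H) : hf X L κ x z = 0 ∧ hf X L κ z x = 0 := by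
  rcases below_killed hz with rfl | ⟨p', q', -, -, h⟩
  · refine ⟨hf_right_zero (map_zero _) _, ?_⟩
    have := hf_smul_left (X := X) (w := L) (k := κ) 0 0 x
    simpa using this
  · obtain ⟨h1, h2⟩ := mem_killed.1 h
    exact ⟨hf_right_zero h2 _, hf_dual_zero hL h1 h2 _⟩

variable {Y : Twisted n} {L' : Module.End ℂ Y.H}

/-- **The basic inequality.** -/
theorem basic (hX : DefectFour X L) (hY : DefectFour Y L') (Φ : Transform X Y)
    (hΦ : Intertwines Φ L L') {a b s₀ κ : ℕ} (hab : a = 0 ∨ b = 0)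
    (hn : a + b + 2 * s₀ + κ = n) :
    (finrank ℂ (X.low (a + (s₀ + 1)) (b + (s₀ + 1)) (s₀ + κ)) : ℤ) + alt X (a + s₀) (b + s₀) +
        2 * finrank ℂ (killedBelow X L (a + s₀) (b + s₀) κ) ≤
      finrank ℂ (Y.low (a + (s₀ + 1)) (b + (s₀ + 1)) (s₀ + κ)) + alt Y (a + s₀) (b + s₀) +
        2 * finrank ℂ (killedBelow Y L' (a + s₀) (b + s₀) κ) := by
  obtain ⟨-, M', -, hM', -, pos, -, hA, -⟩ := neg_dim hX (a + s₀) (b + s₀) κ (by omega)
  obtain ⟨N, N', hN, hN', neg, -, hsum, hA', -⟩ := neg_dim hY (a + s₀) (b + s₀) κ (by omega)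
  obtain ⟨K, hK, hK2⟩ := exists_ker hY hab hn
  have hH := isHerm (X := Y) (w := L') (k := κ) (sg (a + s₀) (b + s₀))
  have hmid : ∀ Z : Twisted n, Z.piece (a + s₀) (b + s₀) ≤ Z.column a b := by
    intro Z x hx
    have h1 := Z.piece_le_column _ _ hx
    rwa [Z.column_shift (a := a) (b := b) (by omega)] at h1
  have hlc : ∀ Z : Twisted n, Z.low a b s₀ ≤ Z.column a b := by
    intro Z
    have := low_le_column (X := Z) (a := a) (b := b) (c := 0) (t := s₀)
    simpa using this
  have h1 := semi_sub hH (Y.column a b)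
    (Submodule.map (Φ.map : X.H →ₗ[ℂ] Y.H)
      (X.low (a + (s₀ + 1)) (b + (s₀ + 1)) (s₀ + κ) ⊔ M' ⊔
        killedBelow X L (a + s₀) (b + s₀) κ))
    (Y.low (a + (s₀ + 1)) (b + (s₀ + 1)) (s₀ + κ) ⊔ N) K
    (by
      rintro _ ⟨x, hx, rfl⟩
      exact Φ.map_column ((sup_le (sup_le low_le_column (hM'.trans (hmid X)))
        ((below_low hab).trans (hlc X))) hx))
    (sup_le low_le_column (hN.trans (hmid Y)))
    (by
      rintro _ ⟨x, hx, rfl⟩
      obtain ⟨fm, hfm, z, hz, rfl⟩ := Submodule.mem_sup.1 hx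
      obtain ⟨f, hf1, m, hm, rfl⟩ := Submodule.mem_sup.1 hfm
      show 0 ≤ sg (a + s₀) (b + s₀) * bf Y L' κ (Φ.map (f + m + z)) (Φ.map (f + m + z))
      have e : bf X L κ (f + m + z) (f + m + z) = bf X L κ (f + m) (f + m) := by
        unfold bf
        rw [hf_add_right, hf_add_left, (hf_below hX.cup hz _).1, (hf_below hX.cup hz _).2,
          add_zero, add_zero]
      rw [bf_iso hΦ, e, (bf_sup hX.cup hn hf1 (hM' hm)).1]
      exact pos m hm)
    (by
      intro x hx
      obtain ⟨f, hf1, m, hm, rfl⟩ := Submodule.mem_sup.1 hx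
      rw [(bf_sup hY.cup hn hf1 (hN hm)).1]
      by_cases hm0 : m = 0
      · rw [hm0]
        exact le_of_eq (hH.zero_left 0)
      · exact (neg m hm hm0).le)
    (by
      intro x hx hxy
      obtain ⟨f, hf1, m, hm, rfl⟩ := Submodule.mem_sup.1 hx
      have hm0 : m = 0 := by
        by_contra hm0
        have h2 := hxy m (hmid Y (hN hm))
        rw [(bf_sup hY.cup hn hf1 (hN hm)).2.1] at h2
        have h3 := neg m hm hm0
        linarith
      rw [hm0, add_zero]
      have h4 : ∀ y ∈ Y.low a b s₀, (hf Y L' κ f y).re = 0 := by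
        intro y hy
        have h2 := hxy y (hlc Y hy)
        rw [(bf_sup hY.cup hn hf1 (hN hm)).2.2 y hy] at h2
        have h3 := (mul_eq_zero.mp h2).resolve_left (sg_ne _ _)
        unfold bf at h3
        rw [hf_column_conj hY.cup hn (low_le_column hf1) (hlc Y hy), Complex.conj_re] at h3
        linarith
      refine hK2 f hf1 fun y hy => ?_
      have h5 := h4 (Complex.I • y) (Submodule.smul_mem _ _ hy)
      rw [hf_smul_right, Complex.conj_I] at h5
      refine Complex.ext (h4 y hy) ?_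
      simp only [Complex.mul_re, Complex.neg_re, Complex.I_re, Complex.neg_im, Complex.I_im] at h5
      simp only [Complex.zero_im]
      linarith)
  have hT : finrank ℂ (Y.column a b) = finrank ℂ (Y.low a b s₀) +
      (Y.hodgeNumber (a + s₀) (b + s₀) +
        finrank ℂ (Y.low (a + (s₀ + 1)) (b + (s₀ + 1)) (s₀ + κ))) := by
    have e1 : 2 * s₀ + κ + 1 = s₀ + (1 + (s₀ + κ)) := by ring
    rw [Y.column_eq (t := 2 * s₀ + κ) hab (by omega), e1, low_add Y, low_add Y]
    congr 2
    rw [Y.finrank_low]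
    simp
  rw [LinearEquiv.finrank_map_eq, finrank_big hab hM', finrank_up hN, hT] at h1
  omega

end Pool.Agent.R929.OE
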