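import Pool.Agent.R929.OE.Main
import Pool.Agent.R929.OD.Canon

/-!
# Isomorphic Chow motives
-/

namespace Pool.Agent.R929.OE

open Module Finset Pool.Agent.TH125.Tw Pool.Agent.R929.OC
open Pool.Agent.R929.OD (Intertwines sub_cup pow_restr_zero central_fst central_snd
  intertwines_chern)

variable {n : ℕ} {X Y : Twisted n} {f : Module.End ℂ X.H} {g : Module.End ℂ Y.H}
  {L : Module.End ℂ X.H} {L' : Module.End ℂ Y.H}

theorem mem_killed_sub (h : Compat X f) (hc : ∀ x, f (L x) = L (f x)) {p q k : ℕ}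
    (x : LinearMap.range f) : (show (sub h).H from x) ∈ killed (sub h) (restr f L hc) p q k ↔
      (x : X.H) ∈ killed X L p q k := by
  constructor
  · rintro ⟨h1, h2⟩
    exact ⟨h1, pow_restr_zero hc x h2⟩
  · rintro ⟨h1, h2⟩
    have h3 : (restr f L hc ^ k) x = 0 := Subtype.ext ((restr_pow f L hc k x).trans h2)
    exact ⟨h1, h3⟩

theorem mem_below_sub (h : Compat X f) (hc : ∀ x, f (L x) = L (f x)) {p q k : ℕ}
    (x : LinearMap.range f) (hx : (x : X.H) ∈ killedBelow X L p q k) :
      (show (sub h).H from x) ∈ killedBelow (sub h) (restr f L hc) p q k := by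
  rcases p with _ | p
  · have h1 : (x : X.H) = 0 := (Submodule.mem_bot ℂ).1 hx
    have h2 : x = 0 := Subtype.ext h1
    rw [h2]
    exact Submodule.zero_mem _
  rcases q with _ | q
  · have h1 : (x : X.H) = 0 := (Submodule.mem_bot ℂ).1 hx
    have h2 : x = 0 := Subtype.ext h1
    rw [h2]
    exact Submodule.zero_mem _
  exact (mem_killed_sub h hc x).2 hx

theorem apply_killed (h : Compat X f) (hc : ∀ x, f (L x) = L (f x)) {p q k : ℕ} {x : X.H}
    (hx : x ∈ killed X L p q k) : f x ∈ killed X L p q k := by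
  obtain ⟨h1, h2⟩ := mem_killed.1 hx
  refine mem_killed.2 ⟨h.mem h1, ?_⟩
  have h3 : ∀ j, ∀ y, f ((L ^ j) y) = (L ^ j) (f y) := by
    intro j
    induction j with
    | zero => intro y; rfl
    | succ j ih => intro y; rw [pow_succ', Module.End.mul_apply, hc, ih, Module.End.mul_apply]
  rw [← h3, h2, map_zero]

theorem apply_below (h : Compat X f) (hc : ∀ x, f (L x) = L (f x)) {p q k : ℕ} {x : X.H}
    (hx : x ∈ killedBelow X L p q k) : f x ∈ killedBelow X L p q k := by
  rcases p with _ | p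
  · have h1 : x = 0 := (Submodule.mem_bot ℂ).1 hx
    rw [h1, map_zero]
    exact Submodule.zero_mem _
  rcases q with _ | q
  · have h1 : x = 0 := (Submodule.mem_bot ℂ).1 hx
    rw [h1, map_zero]
    exact Submodule.zero_mem _
  exact apply_killed h hc hx

theorem sub_four (h : Compat X f) (hL : DefectFour X L) (hc : ∀ x, f (L x) = L (f x))
    {p q k : ℕ} (hk : p + q + k + 4 = n) (x : LinearMap.range f)
    (hx : (x : X.H) ∈ killed X L p q (k + 1)) (hx0 : x ≠ 0) :
    0 < (Complex.I ^ p * (-Complex.I) ^ q * (-1) ^ ((p + q) * (p + q - 1) / 2) *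
      X.form (((restr f L hc ^ k) ((restr f X.lef h.lef ^ 4) x) : LinearMap.range f) : X.H)
        (x : X.H)).re := by
  have h2 := hL.four p q k hk x hx (fun h3 => hx0 (Subtype.ext h3))
  rw [restr_pow, restr_pow]
  exact h2

theorem sub_two (h : Compat X f) (hL : DefectFour X L) (hc : ∀ x, f (L x) = L (f x))
    {p q k : ℕ} (hk : p + q + k + 2 = n) (x : LinearMap.range f)
    (hx : (x : X.H) ∈ killed X L p q (k + 1)) (w : LinearMap.range f)
    (hw : (w : X.H) ∈ X.piece (p + 2) (q + 2))
    (hw2 : (restr f L hc ^ (k + 1)) w = (restr f L hc ^ k) ((restr f X.lef h.lef ^ 3) x)) :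
    0 < (Complex.I ^ p * (-Complex.I) ^ q * (-1) ^ ((p + q) * (p + q - 1) / 2) *
      X.form (((restr f L hc ^ k) ((restr f X.lef h.lef ^ 2) x) : LinearMap.range f) : X.H)
        (x : X.H)).re ∨
    ∃ y : LinearMap.range f, (y : X.H) ∈ killed X L p q k ∧ ∃ z : LinearMap.range f,
      (z : X.H) ∈ killedBelow X L p q (k + 2) ∧ x = y + restr f L hc z := by
  have h1 : (L ^ (k + 1)) (w : X.H) = (L ^ k) ((X.lef ^ 3) (x : X.H)) := by
    have h2 := congrArg Subtype.val hw2
    rwa [restr_pow, restr_pow, restr_pow] at h2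
  rcases hL.two p q k hk x hx ⟨w, hw, h1⟩ with h2 | ⟨y, hy, z, hz, hyz⟩
  · left
    rw [restr_pow, restr_pow]
    exact h2
  · right
    refine ⟨⟨f y, ⟨y, rfl⟩⟩, apply_killed h hc hy, ⟨f z, ⟨z, rfl⟩⟩, apply_below h hc hz, ?_⟩
    apply Subtype.ext
    have h3 : f (x : X.H) = x := h.fix x.2
    have h4 : (x : X.H) = f y + L (f z) := by
      rw [← h3, hyz, map_add, hc]
    exact h4

theorem sub_zero (h : Compat X f) (hL : DefectFour X L) (hc : ∀ x, f (L x) = L (f x))
    {p q k : ℕ} (hk : p + q + k = n) (x : LinearMap.range f)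
    (hx : (x : X.H) ∈ killed X L p q (k + 1)) (w : LinearMap.range f)
    (hw : (w : X.H) ∈ X.piece p q)
    (hw2 : (restr f L hc ^ (k + 1)) w = (restr f L hc ^ k) (restr f X.lef h.lef x)) :
    0 ≤ (Complex.I ^ p * (-Complex.I) ^ q * (-1) ^ ((p + q) * (p + q - 1) / 2) *
      X.form (((restr f L hc ^ k) x : LinearMap.range f) : X.H) (x : X.H)).re := by
  have h1 : (L ^ (k + 1)) (w : X.H) = (L ^ k) (X.lef (x : X.H)) := by
    have h2 := congrArg Subtype.val hw2
    rwa [restr_pow, restr_pow, restr_coe] at h2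
  have h2 := hL.zero p q k hk x hx ⟨w, hw, h1⟩
  rw [restr_pow]
  exact h2

theorem sub_defect (h : Compat X f) (hL : DefectFour X L) (hc : ∀ x, f (L x) = L (f x)) :
    DefectFour (sub h) (restr f L hc) where
  cup := sub_cup h hL.cup hc
  comm := fun (x : LinearMap.range f) => Subtype.ext (hL.comm (x : X.H))
  inj := fun p q k hk (x : LinearMap.range f) hx h0 =>
    Subtype.ext (hL.inj p q k hk (x : X.H) hx (pow_restr_zero hc x h0))
  four := fun _ _ _ hk (x : LinearMap.range f) hx hx0 =>
    sub_four h hL hc hk x ((mem_killed_sub h hc x).1 hx) hx0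
  two := by
    rintro p q k hk (x : LinearMap.range f) hx ⟨(w : LinearMap.range f), hw, hw2⟩
    rcases sub_two h hL hc hk x ((mem_killed_sub h hc x).1 hx) w hw hw2 with
      h1 | ⟨y, hy, z, hz, hyz⟩
    · exact Or.inl h1
    · exact Or.inr ⟨y, (mem_killed_sub h hc y).2 hy, z, mem_below_sub h hc z hz, hyz⟩
  zero := by
    rintro p q k hk (x : LinearMap.range f) hx ⟨(w : LinearMap.range f), hw, hw2⟩
    exact sub_zero h hL hc hk x ((mem_killed_sub h hc x).1 hx) w hw hw2

variable {D : Corr X Y} {π : ℕ → D.C} {e : Module.End ℂ (X.H × Y.H)}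

/-- `u` and `v` induce inverse isomorphisms of the spaces of classes of type `(p, q)` killed by
`L ^ k` on `X` and on `Y`. -/
def InverseOnKilled (D : Corr X Y) (L : Module.End ℂ X.H) (L' : Module.End ℂ Y.H) (p q k : ℕ)
    (u v : D.C) : Prop :=
  (∀ x ∈ killed X L p q k, ∃ y ∈ killed Y L' p q k, D.on u (x, 0) = (0, y) ∧
    D.on v (0, y) = (x, 0)) ∧
  (∀ y ∈ killed Y L' p q k, ∃ x ∈ killed X L p q k, D.on v (0, y) = (x, 0) ∧
    D.on u (x, 0) = (0, y))

/-- For `p + q + k + 2 = n` the spaces of classes of type `(p, q)` killed by `L ^ k` are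
isomorphic by correspondences of degree zero. -/
def SameKernels (D : Corr X Y) (L : Module.End ℂ X.H) (L' : Module.End ℂ Y.H) : Prop :=
  ∀ p q k : ℕ, p + q + k + 2 = n → ∃ u ∈ D.deg 0, ∃ v ∈ D.deg 0, InverseOnKilled D L L' p q k u v

theorem killed_sub_finrank (h : Compat X f) (hc : ∀ x, f (L x) = L (f x)) (p q k : ℕ) :
    finrank ℂ (killed (sub h) (restr f L hc) p q k) =
      finrank ℂ (LinearMap.range f ⊓ killed X L p q k : Submodule ℂ X.H) := by
  have e : ((killed X L p q k).comap (LinearMap.range f).subtype).map (LinearMap.range f).subtype =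
      LinearMap.range f ⊓ killed X L p q k := Submodule.map_comap_subtype _ _
  rw [← e, Submodule.finrank_map_subtype_eq]
  have e2 : killed (sub h) (restr f L hc) p q k =
      (killed X L p q k).comap (LinearMap.range f).subtype := by
    ext x
    exact mem_killed_sub h hc x
  rw [e2]
  rfl

theorem kernels_sub (hπ : IsKun D π) (he : IsCentral D e) (hS : SameKernels D L L')
    (hcX : ∀ x, fst e (L x) = L (fst e x)) (hcY : ∀ y, snd e (L' y) = L' (snd e y)) :
    SameNullities (sub (he.compat_fst hπ)) (sub (he.compat_snd hπ)) (restr (fst e) L hcX)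
      (restr (snd e) L' hcY) := by
  intro p q k hk
  obtain ⟨u, -, v, -, h1, h2⟩ := hS p q k hk
  rw [killed_sub_finrank, killed_sub_finrank]
  let u' : X.H →ₗ[ℂ] Y.H := LinearMap.snd ℂ X.H Y.H ∘ₗ D.act u ∘ₗ LinearMap.inl ℂ X.H Y.H
  let v' : Y.H →ₗ[ℂ] X.H := LinearMap.fst ℂ X.H Y.H ∘ₗ D.act v ∘ₗ LinearMap.inr ℂ X.H Y.H
  have hu : ∀ x ∈ killed X L p q k, u' x ∈ killed Y L' p q k ∧ v' (u' x) = x ∧
      snd e (u' x) = u' (fst e x) := by
    intro x hx
    obtain ⟨y, hy, a1, a2⟩ := h1 x hx
    have b1 : D.act u (x, 0) = (0, y) := a1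
    have b2 : D.act v (0, y) = (x, 0) := a2
    have b3 : u' x = y := congrArg Prod.snd b1
    refine ⟨b3 ▸ hy, ?_, ?_⟩
    · rw [b3]
      exact congrArg Prod.fst b2
    · have c1 := he.comm u (x, 0)
      rw [b1, he.inr, he.inl] at c1
      have c2 : snd e y = (D.act u (fst e x, 0)).2 := by rw [← c1]
      rw [b3]
      exact c2
  have hv : ∀ y ∈ killed Y L' p q k, v' y ∈ killed X L p q k ∧ u' (v' y) = y ∧
      fst e (v' y) = v' (snd e y) := by
    intro y hy
    obtain ⟨x, hx, a1, a2⟩ := h2 y hy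
    have b1 : D.act v (0, y) = (x, 0) := a1
    have b2 : D.act u (x, 0) = (0, y) := a2
    have b3 : v' y = x := congrArg Prod.fst b1
    refine ⟨b3 ▸ hx, ?_, ?_⟩
    · rw [b3]
      exact congrArg Prod.snd b2
    · have c1 := he.comm v (0, y)
      rw [b1, he.inl, he.inr] at c1
      have c2 : fst e x = (D.act v (0, snd e y)).1 := by rw [← c1]
      rw [b3]
      exact c2
  apply le_antisymm
  · let R : (LinearMap.range (fst e) ⊓ killed X L p q k : Submodule ℂ X.H) →ₗ[ℂ]
        (LinearMap.range (snd e) ⊓ killed Y L' p q k : Submodule ℂ Y.H) := u'.restrict (by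
      rintro x ⟨hx1, hx2⟩
      refine ⟨⟨u' x, ?_⟩, (hu x hx2).1⟩
      rw [(hu x hx2).2.2, (he.compat_fst hπ).fix hx1])
    refine LinearMap.finrank_le_finrank_of_injective (f := R) ?_
    rw [injective_iff_map_eq_zero]
    rintro ⟨x, hx1, hx2⟩ hx
    have c1 : u' x = 0 := congrArg Subtype.val hx
    have c2 := (hu x hx2).2.1
    rw [c1, map_zero] at c2
    exact Subtype.ext c2.symm
  · let R : (LinearMap.range (snd e) ⊓ killed Y L' p q k : Submodule ℂ Y.H) →ₗ[ℂ]
        (LinearMap.range (fst e) ⊓ killed X L p q k : Submodule ℂ X.H) := v'.restrict (by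
      rintro y ⟨hy1, hy2⟩
      refine ⟨⟨v' y, ?_⟩, (hv y hy2).1⟩
      rw [(hv y hy2).2.2, (he.compat_snd hπ).fix hy1])
    refine LinearMap.finrank_le_finrank_of_injective (f := R) ?_
    rw [injective_iff_map_eq_zero]
    rintro ⟨y, hy1, hy2⟩ hy
    have c1 : v' y = 0 := congrArg Subtype.val hy
    have c2 := (hv y hy2).2.1
    rw [c1, map_zero] at c2
    exact Subtype.ext c2.symm

/-- **Orlov's conjecture for equivalences which commute with a nef class of defect at most
four.** -/
theorem chow (hK : Kunneth D) (hN : Nilpotence D) (hS : Semisimple D) (Ψ : Equivalence D)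
    (hX : DefectFour X L) (hY : DefectFour Y L') {c : D.C} (hc : ∀ z, D.on c z = (L z.1, L' z.2))
    (hΨ : Intertwines Ψ.Φ L L') (hk : SameKernels D L L') : MotivesIsomorphic D := by
  obtain ⟨π, hπ⟩ := exists_kun D hK
  refine motives_iso hπ hN hS fun e he p q => ?_
  refine main (sub_defect (he.compat_fst hπ) hX (central_fst he hc))
    (sub_defect (he.compat_snd hπ) hY (central_snd he hc))
    (subTransform (he.compat_fst hπ) (he.compat_snd hπ) Ψ.Φ (commutes he Ψ)) ?_
    (kernels_sub hπ he hk _ _) p q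
  intro x
  exact Subtype.ext (hΨ (show X.H from (show LinearMap.range (fst e) from x)))

/-- **Orlov's conjecture for canonical classes of defect at most four.** -/
theorem canonical (hK : Kunneth D) (hN : Nilpotence D) (hS : Semisimple D) (Ψ : Equivalence D)
    {s : ℤ} (hX : DefectFour X (s • X.chern)) (hY : DefectFour Y (s • Y.chern))
    (hk : SameKernels D (s • X.chern) (s • Y.chern)) : MotivesIsomorphic D := by
  refine chow hK hN hS Ψ hX hY (c := s • D.chern) ?_ ?_ hk
  · intro z
    show D.act (s • D.chern) z = _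
    rw [map_zsmul, LinearMap.smul_apply, D.chern_act]
    rfl
  · intro x
    rw [LinearMap.smul_apply, map_zsmul, intertwines_chern, LinearMap.smul_apply]

/-- The Hodge numbers if the canonical classes have defect at most four. -/
theorem canonical_iff (Φ : Transform X Y) {s : ℤ} (hX : DefectFour X (s • X.chern))
    (hY : DefectFour Y (s • Y.chern)) :
    (∀ p q, X.hodgeNumber p q = Y.hodgeNumber p q) ↔
      SameNullities X Y (s • X.chern) (s • Y.chern) := by
  refine main_iff hX hY Φ ?_
  intro x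
  rw [LinearMap.smul_apply, map_zsmul, intertwines_chern, LinearMap.smul_apply]

end Pool.Agent.R929.OE
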