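import Pool.Agent.R929.OD.Main

/-!
# Nef classes of defect at most four
-/

open scoped ComplexConjugate

namespace Pool.Agent.R929.OE

open Module Finset Pool.Agent.TH125.Tw Pool.Agent.R929.OD

variable {n : ℕ}

/-- The classes `x` of type `(p, q)` with `L ^ k x = 0`. -/
def killed (X : Twisted n) (L : Module.End ℂ X.H) (p q k : ℕ) : Submodule ℂ X.H :=
  X.piece p q ⊓ LinearMap.ker (L ^ k)

/-- The classes `x` of type `(p - 1, q - 1)` with `L ^ k x = 0`. -/
def killedBelow (X : Twisted n) (L : Module.End ℂ X.H) : ℕ → ℕ → ℕ → Submodule ℂ X.H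
  | p + 1, q + 1, k => killed X L p q k
  | 0, _, _ => ⊥
  | _ + 1, 0, _ => ⊥

/-- The Hodge-Riemann expression for the classes `y` and `x`, `x` of type `(p, q)`. -/
noncomputable def hr (X : Twisted n) (p q : ℕ) (y x : X.H) : ℝ :=
  (Complex.I ^ p * (-Complex.I) ^ q * (-1) ^ ((p + q) * (p + q - 1) / 2) * X.form y x).re

/-- `L ^ k` is injective on the classes of degree `n - 4 - k`. -/
def LefschetzFour (X : Twisted n) (L : Module.End ℂ X.H) : Prop :=
  ∀ (p q k : ℕ), p + q + k + 4 = n → ∀ x ∈ X.piece p q, (L ^ k) x = 0 → x = 0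

/-- The relative Hodge-Riemann relations for the classes of degree `n - 4 - k` with
`L ^ (k + 1) x = 0`, the primitive classes of perversity `-4`. -/
def RiemannFour (X : Twisted n) (L : Module.End ℂ X.H) : Prop :=
  ∀ (p q k : ℕ), p + q + k + 4 = n → ∀ x ∈ killed X L p q (k + 1), x ≠ 0 →
    0 < hr X p q ((L ^ k) ((X.lef ^ 4) x)) x

/-- The relative Hodge-Riemann relations for the classes of degree `n - 2 - k` with
`L ^ (k + 1) x = 0` which are primitive for the relative Lefschetz operator (`L ^ k ω ^ 3 x` is in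
the image of `L ^ (k + 1)`), modulo those of perversity less than `-2`, which are the sums `y + L z`
with `L ^ k y = 0`, `L ^ (k + 2) z = 0`. -/
def RiemannTwo (X : Twisted n) (L : Module.End ℂ X.H) : Prop :=
  ∀ (p q k : ℕ), p + q + k + 2 = n → ∀ x ∈ killed X L p q (k + 1),
    (∃ w ∈ X.piece (p + 2) (q + 2), (L ^ (k + 1)) w = (L ^ k) ((X.lef ^ 3) x)) →
    0 < hr X p q ((L ^ k) ((X.lef ^ 2) x)) x ∨
    ∃ y ∈ killed X L p q k, ∃ z ∈ killedBelow X L p q (k + 2), x = y + L z

/-- The relative Hodge-Riemann relations for the classes of degree `n - k` with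
`L ^ (k + 1) x = 0` which are primitive for the relative Lefschetz operator (`L ^ k ω x` is in the
image of `L ^ (k + 1)`). -/
def RiemannZero (X : Twisted n) (L : Module.End ℂ X.H) : Prop :=
  ∀ (p q k : ℕ), p + q + k = n → ∀ x ∈ killed X L p q (k + 1),
    (∃ w ∈ X.piece p q, (L ^ (k + 1)) w = (L ^ k) (X.lef x)) → 0 ≤ hr X p q ((L ^ k) x) x

/-- The operator `L` has the properties of the product with the pull-back of an ample class under a
morphism whose defect of semismallness is at most four (for example a morphism with equidimensional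
fibres of dimension at most four): it is of type `(1, 1)`, self-adjoint and commutes with the
Lefschetz operator, and satisfies the relative hard Lefschetz theorem and the relative
Hodge-Riemann relations for the classes of even perversity. -/
structure DefectFour (X : Twisted n) (L : Module.End ℂ X.H) : Prop where
  cup : IsCupProduct X.toGradedForm L
  comm : ∀ x, L (X.lef x) = X.lef (L x)
  inj : LefschetzFour X L
  four : RiemannFour X L
  two : RiemannTwo X L
  zero : RiemannZero X L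

variable {X : Twisted n} {L : Module.End ℂ X.H}

theorem mem_killed {p q k : ℕ} {x : X.H} :
    x ∈ killed X L p q k ↔ x ∈ X.piece p q ∧ (L ^ k) x = 0 := Iff.rfl

theorem killed_mono {p q k : ℕ} : killed X L p q k ≤ killed X L p q (k + 1) := by
  intro x hx
  rw [mem_killed] at hx ⊢
  refine ⟨hx.1, ?_⟩
  rw [pow_succ', Module.End.mul_apply, hx.2, map_zero]

theorem below_mem (hL : IsCupProduct X.toGradedForm L) {p q k : ℕ} {z : X.H}
    (hz : z ∈ killedBelow X L p q k) : L z ∈ X.piece p q ∧ X.lef z ∈ X.piece p q ∧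
      (L ^ k) z = 0 := by
  rcases p with _ | p
  · have h : z = 0 := (Submodule.mem_bot ℂ).1 hz
    rw [h, map_zero, map_zero, map_zero]
    exact ⟨Submodule.zero_mem _, Submodule.zero_mem _, rfl⟩
  rcases q with _ | q
  · have h : z = 0 := (Submodule.mem_bot ℂ).1 hz
    rw [h, map_zero, map_zero, map_zero]
    exact ⟨Submodule.zero_mem _, Submodule.zero_mem _, rfl⟩
  have h : z ∈ killed X L p q k := hz
  rw [mem_killed] at h
  exact ⟨hL.mem h.1, X.lef_mem h.1, h.2⟩

theorem hr_eq_sg {p q : ℕ} {x : X.H} (y : X.H) :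
    hr X p q y x = sg p q * (Complex.I ^ (p + q) * X.form y x).re := by
  unfold hr
  have e : Complex.I ^ p * (-Complex.I) ^ q * (-1) ^ ((p + q) * (p + q - 1) / 2) * X.form y x =
      (sg p q : ℂ) * (Complex.I ^ (p + q) * X.form y x) := by
    unfold sg
    push_cast
    rw [neg_pow Complex.I q, pow_add]
    ring
  rw [e, Complex.re_ofReal_mul]

/-- The Hodge-Riemann expression in terms of the hermitian form. -/
theorem hr_hf (hL : IsCupProduct X.toGradedForm L) {p q k : ℕ} {x : X.H} (hx : x ∈ X.piece p q) :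
    hr X p q ((L ^ k) x) x = sg p q * (hf X L k x x).re := by
  rw [hr_eq_sg, pow_form hL, hf_hom hx]

theorem hf_lef (hc : ∀ x, L (X.lef x) = X.lef (L x)) {k : ℕ} (x y : X.H) :
    hf X L k (X.lef x) y = -hf X L k x (X.lef y) := by
  rw [hf_mul_left X.lef_cup]
  unfold hf
  rw [pow_lef hc]

theorem hr_two (hL : IsCupProduct X.toGradedForm L) (hc : ∀ x, L (X.lef x) = X.lef (L x))
    {p q k : ℕ} {x : X.H} (hx : x ∈ X.piece p q) :
    hr X p q ((L ^ k) ((X.lef ^ 2) x)) x = -(sg p q * (hf X L k (X.lef x) (X.lef x)).re) := by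
  have e : hf X L k (X.lef x) (X.lef x) =
      -(Complex.I ^ (p + q) * X.form ((L ^ k) ((X.lef ^ 2) x)) x) := by
    rw [hf_lef hc, hf_hom hx, pow_form hL, pow_form X.lef_cup]
    congr 3
    rw [pow_two, Module.End.mul_apply, pow_lef hc, pow_lef hc]
  rw [hr_eq_sg, e, Complex.neg_re]
  ring

theorem hr_four (hL : IsCupProduct X.toGradedForm L) (hc : ∀ x, L (X.lef x) = X.lef (L x))
    {p q k : ℕ} {x : X.H} (hx : x ∈ X.piece p q) :
    hr X p q ((L ^ k) ((X.lef ^ 4) x)) x =
      sg p q * (hf X L k (X.lef (X.lef x)) (X.lef (X.lef x))).re := by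
  have e : hf X L k (X.lef (X.lef x)) (X.lef (X.lef x)) =
      Complex.I ^ (p + q) * X.form ((L ^ k) ((X.lef ^ 4) x)) x := by
    rw [hf_lef hc, hf_lef hc, neg_neg, hf_hom hx, pow_form hL, pow_form X.lef_cup]
    congr 2
    rw [show (4 : ℕ) = 1 + 1 + 1 + 1 from rfl, pow_add, pow_add, pow_add, pow_one]
    simp only [Module.End.mul_apply, pow_lef hc]
  rw [hr_eq_sg, e]

/-- Orthogonality conditions. -/
theorem orth_two (hL : IsCupProduct X.toGradedForm L) (hc : ∀ x, L (X.lef x) = X.lef (L x))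
    {p q k : ℕ} {x : X.H} (hx : x ∈ X.piece p q) (z : X.H)
    (h : hf X L k x ((X.lef ^ 3) z) = 0) : X.form ((L ^ k) ((X.lef ^ 3) x)) z = 0 := by
  rw [hf_hom hx] at h
  have h1 := (mul_eq_zero.mp h).resolve_left (pow_ne_zero _ Complex.I_ne_zero)
  rw [pow_form hL, pow_form X.lef_cup, ← h1]
  congr 1
  rw [show (3 : ℕ) = 1 + 1 + 1 from rfl, pow_add, pow_add, pow_one]
  simp only [Module.End.mul_apply, pow_lef hc]

theorem orth_zero (hL : IsCupProduct X.toGradedForm L) (hc : ∀ x, L (X.lef x) = X.lef (L x))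
    {p q k : ℕ} {x : X.H} (hx : x ∈ X.piece p q) (z : X.H)
    (h : hf X L k x (X.lef z) = 0) : X.form ((L ^ k) (X.lef x)) z = 0 := by
  rw [hf_hom hx] at h
  have h1 := (mul_eq_zero.mp h).resolve_left (pow_ne_zero _ Complex.I_ne_zero)
  rw [pow_form hL, X.lef_form, ← h1, pow_lef hc]

/-- The vectors of `V` which are orthogonal to `Z`. -/
def orth (L : Module.End ℂ X.H) (k : ℕ) (V Z : Submodule ℂ X.H) : Submodule ℂ X.H where
  carrier := {x | x ∈ V ∧ ∀ y ∈ Z, hf X L k x y = 0}
  add_mem' := fun {u v} hu hv => ⟨V.add_mem hu.1 hv.1, fun y hy => by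
    rw [hf_add_left, hu.2 y hy, hv.2 y hy, add_zero]⟩
  zero_mem' := ⟨V.zero_mem, fun y _ => by
    have := hf_smul_left (X := X) (w := L) (k := k) 0 0 y
    simpa using this⟩
  smul_mem' := fun c u hu => ⟨V.smul_mem _ hu.1, fun y hy => by
    rw [hf_smul_left, hu.2 y hy, mul_zero]⟩

theorem mem_orth {k : ℕ} {V Z : Submodule ℂ X.H} {x : X.H} :
    x ∈ orth L k V Z ↔ x ∈ V ∧ ∀ y ∈ Z, hf X L k x y = 0 := Iff.rfl

theorem orth_le {k : ℕ} {V Z : Submodule ℂ X.H} : orth L k V Z ≤ V := fun _ hx => hx.1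

/-- The codimension of the orthogonal space. -/
theorem finrank_orth (L : Module.End ℂ X.H) (k : ℕ) (V Z : Submodule ℂ X.H) :
    finrank ℂ V ≤ finrank ℂ (orth L k V Z) + finrank ℂ Z := by
  let v := finBasis ℂ Z
  let T : V →ₗ[ℂ] (Fin (finrank ℂ Z) → ℂ) := LinearMap.pi fun i =>
    (((X.form.flip ((L ^ k) (v i : X.H))) ∘ₗ X.dual) ∘ₗ V.subtype)
  have hT : ∀ x i, T x i = hf X L k (x : X.H) (v i : X.H) := fun x i => rfl
  have h1 := LinearMap.finrank_range_add_finrank_ker T
  have h2 : finrank ℂ (LinearMap.range T) ≤ finrank ℂ Z := by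
    have := Submodule.finrank_le (LinearMap.range T)
    rwa [Module.finrank_fin_fun] at this
  have h3 : (LinearMap.ker T).map V.subtype ≤ orth L k V Z := by
    rintro _ ⟨x, hx, rfl⟩
    refine mem_orth.2 ⟨x.2, fun y hy => ?_⟩
    have h4 : ∀ i, hf X L k (x : X.H) (v i : X.H) = 0 := by
      intro i
      rw [← hT]
      exact congrFun (LinearMap.mem_ker.1 hx) i
    have h5 : y = ∑ i, v.repr ⟨y, hy⟩ i • (v i : X.H) := by
      have h6 := congrArg Z.subtype (v.sum_repr ⟨y, hy⟩)
      rw [map_sum] at h6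
      exact h6.symm
    rw [h5]
    have h7 : ∀ s : Finset (Fin (finrank ℂ Z)),
        hf X L k (x : X.H) (∑ i ∈ s, v.repr ⟨y, hy⟩ i • (v i : X.H)) = 0 := by
      intro s
      induction s using Finset.cons_induction with
      | empty =>
        have := hf_smul_right (X := X) (w := L) (k := k) 0 (x : X.H) 0
        simpa using this
      | cons a s ha ih => rw [Finset.sum_cons, hf_add_right, hf_smul_right, h4, ih]; simp
    exact h7 _
  have h8 := Submodule.finrank_mono h3
  rw [Submodule.finrank_map_subtype_eq] at h8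
  omega

theorem finrank_map_ker (f : Module.End ℂ X.H) (S : Submodule ℂ X.H) :
    finrank ℂ (S.map f) + finrank ℂ (S ⊓ LinearMap.ker f : Submodule ℂ X.H) = finrank ℂ S := by
  have h1 := LinearMap.finrank_range_add_finrank_ker (f.domRestrict S)
  have h2 : LinearMap.range (f.domRestrict S) = S.map f := by
    ext x
    constructor
    · rintro ⟨y, rfl⟩
      exact ⟨y, y.2, rfl⟩
    · rintro ⟨y, hy, rfl⟩
      exact ⟨⟨y, hy⟩, rfl⟩
  have h3 : (LinearMap.ker (f.domRestrict S)).map S.subtype = S ⊓ LinearMap.ker f := by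
    ext x
    constructor
    · rintro ⟨y, hy, rfl⟩
      exact ⟨y.2, hy⟩
    · rintro ⟨hx1, hx2⟩
      exact ⟨⟨x, hx1⟩, hx2, rfl⟩
  rw [h2] at h1
  rw [← h3, Submodule.finrank_map_subtype_eq]
  exact h1

/-- Nondegeneracy on a piece. -/
theorem piece_nondeg {p q p' q' : ℕ} (h1 : p + q' = n) (h2 : q + p' = n) {x : X.H}
    (hx : x ∈ X.piece p q) (h : ∀ z ∈ X.piece p' q', X.form x z = 0) : x = 0 := by
  refine X.form_nondeg _ fun y => ?_
  refine X.ind (P := fun y => X.form x y = 0) (map_zero _) ?_ ?_ y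
  · intro a b ha hb
    rw [map_add, ha, hb, add_zero]
  · intro c d y hy
    by_cases hpq : (p + d, q + c) = (n, n)
    · have e1 := congrArg Prod.fst hpq
      have e2 := congrArg Prod.snd hpq
      simp only at e1 e2
      have e3 : c = p' := by omega
      have e4 : d = q' := by omega
      rw [e3, e4] at hy
      exact h y hy
    · exact X.form_zero hx hy hpq

/-- Orthogonal subspaces of dual pieces. -/
theorem ann_le {p q p' q' : ℕ} (h1 : p + q' = n) (h2 : q + p' = n) {A Z : Submodule ℂ X.H}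
    (hA : A ≤ X.piece p q) (hZ : Z ≤ X.piece p' q')
    (h : ∀ x ∈ A, ∀ z ∈ Z, X.form x z = 0) :
    finrank ℂ A + finrank ℂ Z ≤ X.hodgeNumber p' q' := by
  obtain ⟨C, hC⟩ := Submodule.exists_isCompl Z
  let W : Submodule ℂ X.H := X.piece p' q' ⊓ C
  have e1 : Z ⊔ W = X.piece p' q' := by
    have : Z ⊔ C ⊓ X.piece p' q' = (Z ⊔ C) ⊓ X.piece p' q' := (sup_inf_assoc_of_le C hZ).symm
    show Z ⊔ X.piece p' q' ⊓ C = X.piece p' q'
    rw [inf_comm, this, hC.sup_eq_top, top_inf_eq]
  have e2 : Z ⊓ W = ⊥ := by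
    rw [eq_bot_iff]
    rintro x ⟨hx1, -, hx2⟩
    have : x ∈ Z ⊓ C := ⟨hx1, hx2⟩
    rwa [hC.inf_eq_bot] at this
  have e3 := Submodule.finrank_sup_add_finrank_inf_eq Z W
  rw [e1, e2, finrank_bot, add_zero] at e3
  let v := finBasis ℂ W
  let T : A →ₗ[ℂ] (Fin (finrank ℂ W) → ℂ) := LinearMap.pi fun i =>
    ((X.form.flip (v i : X.H)) ∘ₗ A.subtype)
  have hT : ∀ x i, T x i = X.form (x : X.H) (v i : X.H) := fun x i => rfl
  have hinj : Function.Injective T := by
    rw [injective_iff_map_eq_zero]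
    intro x hx
    refine Subtype.ext (piece_nondeg h1 h2 (hA x.2) fun z hz => ?_)
    rw [← e1] at hz
    obtain ⟨u, hu, w, hw, rfl⟩ := Submodule.mem_sup.1 hz
    rw [map_add, h x x.2 u hu, zero_add]
    have h4 : ∀ i, X.form (x : X.H) (v i : X.H) = 0 := fun i => by
      rw [← hT, hx]
      rfl
    have h5 : w = ∑ i, v.repr ⟨w, hw⟩ i • (v i : X.H) := by
      have h6 := congrArg W.subtype (v.sum_repr ⟨w, hw⟩)
      rw [map_sum] at h6
      exact h6.symm
    rw [h5, map_sum]
    refine Finset.sum_eq_zero fun i _ => ?_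
    rw [LinearMap.map_smulₛₗ, h4, smul_zero]
  have h3 := LinearMap.finrank_le_finrank_of_injective hinj
  rw [Module.finrank_fin_fun] at h3
  have h4 : finrank ℂ (X.piece p' q') = X.hodgeNumber p' q' := rfl
  omega

/-- The classes which are orthogonal to the kernel of `L ^ j` are in the image of `L ^ j`. -/
theorem exists_image (hL : IsCupProduct X.toGradedForm L) {p q P Q j : ℕ}
    (hP : P + j + q = n + 1) (hQ : Q + j + p = n + 1) {y : X.H}
    (hy : y ∈ X.piece (P + j) (Q + j)) (h : ∀ z ∈ killedBelow X L p q j, X.form y z = 0) :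
    ∃ w ∈ X.piece P Q, (L ^ j) w = y := by
  rcases p with _ | p
  · exact ⟨0, Submodule.zero_mem _, by rw [map_zero, X.piece_large (by omega) hy]⟩
  rcases q with _ | q
  · exact ⟨0, Submodule.zero_mem _, by rw [map_zero, X.piece_large (by omega) hy]⟩
  have hk : killedBelow X L (p + 1) (q + 1) j = killed X L p q j := rfl
  rw [hk] at h
  let Z := killed X L p q j
  let I : Submodule ℂ X.H := (X.piece P Q).map (L ^ j)
  let I' : Submodule ℂ X.H := (X.piece p q).map (L ^ j)
  let A : Submodule ℂ X.H := I ⊔ Submodule.span ℂ {y}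
  have hI : I ≤ X.piece (P + j) (Q + j) := by
    rintro _ ⟨x, hx, rfl⟩
    exact pow_mem hL hx j
  have hI' : I' ≤ X.piece (p + j) (q + j) := by
    rintro _ ⟨x, hx, rfl⟩
    exact pow_mem hL hx j
  have hA : A ≤ X.piece (P + j) (Q + j) :=
    sup_le hI ((Submodule.span_singleton_le_iff_mem _ _).2 hy)
  have hAZ : ∀ x ∈ A, ∀ z ∈ Z, X.form x z = 0 := by
    intro x hx z hz
    obtain ⟨_, ⟨u, hu, rfl⟩, v, hv, rfl⟩ := Submodule.mem_sup.1 hx
    obtain ⟨c, rfl⟩ := Submodule.mem_span_singleton.1 hv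
    rw [map_add, LinearMap.add_apply, map_smul, LinearMap.smul_apply, h z hz, smul_zero, add_zero,
      pow_form hL, (mem_killed.1 hz).2, map_zero]
  have h1 := ann_le (X := X) (p := P + j) (q := Q + j) (p' := p) (q' := q) (by omega) (by omega) hA
    (inf_le_left : Z ≤ X.piece p q) hAZ
  have h2 := ann_le (X := X) (p := P) (q := Q) (p' := p + j) (q' := q + j) (by omega) (by omega)
    (A := killed X L P Q j) (Z := I') inf_le_left hI' (by
      rintro x hx _ ⟨z, hz, rfl⟩
      rw [← pow_form hL, (mem_killed.1 hx).2, map_zero, LinearMap.zero_apply])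
  have h3 := finrank_map_ker (L ^ j) (X.piece P Q)
  have h4 := finrank_map_ker (L ^ j) (X.piece p q)
  have h5 : X.hodgeNumber P Q = X.hodgeNumber (p + j) (q + j) :=
    X.dim_eq (by omega) (by omega)
  have e1 : finrank ℂ (X.piece P Q) = X.hodgeNumber P Q := rfl
  have e2 : finrank ℂ (X.piece p q) = X.hodgeNumber p q := rfl
  have e3 : finrank ℂ (X.piece P Q ⊓ LinearMap.ker (L ^ j) : Submodule ℂ X.H) =
    finrank ℂ (killed X L P Q j) := rfl
  have e4 : finrank ℂ (X.piece p q ⊓ LinearMap.ker (L ^ j) : Submodule ℂ X.H) =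
    finrank ℂ Z := rfl
  have e5 : finrank ℂ ((X.piece P Q).map (L ^ j)) = finrank ℂ I := rfl
  have e6 : finrank ℂ ((X.piece p q).map (L ^ j)) = finrank ℂ I' := rfl
  have h6 : finrank ℂ A ≤ finrank ℂ I := by omega
  have h7 : I = A := Submodule.eq_of_le_of_finrank_le le_sup_left h6
  have h8 : y ∈ I := by
    rw [h7]
    exact Submodule.mem_sup_right (Submodule.mem_span_singleton_self y)
  obtain ⟨w, hw, hwy⟩ := h8
  exact ⟨w, hw, hwy⟩

end Pool.Agent.R929.OE
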