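import Pool.Agent.R929.OE.Step

/-!
# The index of the form of a nef class of defect at most four
-/

open scoped ComplexConjugate Topology

namespace Pool.Agent.R929.OE

open Module Finset Pool.Agent.TH125.Tw Pool.Agent.R929.OD
open Pool.Agent.W539.DI (finrank_map_of_inj)
open Pool.Agent.R929.DH (IsHerm semi_sub exists_max_sub)

variable {n : ℕ} {X : Twisted n} {L : Module.End ℂ X.H}

/-- The form is nonnegative on the primitive classes which are orthogonal to a complement of the
part of low perversity. -/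
theorem zero_pos (hL : DefectFour X L) {p q k : ℕ} (hk : p + q + k + 2 = n)
    {P' : Submodule ℂ X.H} (hP' : P' ≤ primTwo X L p q k)
    (hsup : lowPart X L p q k ⊔ P' = primTwo X L p q k) {x : X.H}
    (hx : x ∈ killed X L (p + 1) (q + 1) (k + 1)) (h : ∀ v ∈ P', hf X L k x (X.lef v) = 0) :
    0 ≤ sg (p + 1) (q + 1) * bf X L k x x := by
  let Z := killedBelow X L p q (k + 1)
  let D : Submodule ℂ X.H := (Z.map X.lef).map X.lef
  have hZP : ∀ z ∈ Z, X.lef z ∈ killed X L p q (k + 1) := fun z hz =>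
    lef_below_le hL ⟨z, hz, rfl⟩
  have hlefP : ∀ v ∈ killed X L p q (k + 1), X.lef v ∈ killed X L (p + 1) (q + 1) (k + 1) := by
    intro v hv
    obtain ⟨h1, h2⟩ := mem_killed.1 hv
    refine mem_killed.2 ⟨X.lef_mem h1, ?_⟩
    rw [pow_lef hL.comm, h2, map_zero]
  have hDJ : D ≤ killed X L (p + 1) (q + 1) (k + 1) := by
    rintro _ ⟨_, ⟨z, hz, rfl⟩, rfl⟩
    exact hlefP _ (hZP z hz)
  have hconj : ∀ a ∈ X.piece (p + 1) (q + 1), ∀ b ∈ X.piece (p + 1) (q + 1),
      hf X L k a b = 0 → hf X L k b a = 0 := by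
    intro a ha b hb h0
    rw [hf_conj hL.cup ha hb (by omega) (by omega) ⟨p + 1 + (q + 1) + k, by omega⟩, h0, map_zero]
  have hd : orth L k (killed X L (p + 1) (q + 1) (k + 1)) D ⊓ D = ⊥ := by
    rw [eq_bot_iff]
    rintro y ⟨hy1, hy2⟩
    rw [Submodule.mem_bot]
    by_contra hy0
    have h1 := (mem_orth.1 hy1).2 y hy2
    obtain ⟨_, ⟨z, hz, rfl⟩, rfl⟩ := hy2
    have hz0 : z ≠ 0 := by
      rintro rfl
      exact hy0 (by rw [map_zero, map_zero])
    have h2 := four_pos hL hk hz hz0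
    rw [h1] at h2
    simp at h2
  have h1 := finrank_orth L k (killed X L (p + 1) (q + 1) (k + 1)) D
  have h2 := Submodule.finrank_sup_add_finrank_inf_eq
    (orth L k (killed X L (p + 1) (q + 1) (k + 1)) D) D
  rw [hd, finrank_bot, add_zero] at h2
  have h3 : orth L k (killed X L (p + 1) (q + 1) (k + 1)) D ⊔ D ≤
    killed X L (p + 1) (q + 1) (k + 1) := sup_le orth_le hDJ
  have h4 := Submodule.finrank_mono h3
  have h5 : orth L k (killed X L (p + 1) (q + 1) (k + 1)) D ⊔ D =
    killed X L (p + 1) (q + 1) (k + 1) := Submodule.eq_of_le_of_finrank_eq h3 (by omega)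
  rw [← h5] at hx
  obtain ⟨x₀, hx₀, d, hdD, rfl⟩ := Submodule.mem_sup.1 hx
  obtain ⟨hx₁, hx₂⟩ := mem_orth.1 hx₀
  obtain ⟨hx₃, hx₄⟩ := mem_killed.1 hx₁
  have hdp := (mem_killed.1 (hDJ hdD)).1
  have hx0d : hf X L k x₀ d = 0 := hx₂ d hdD
  have hdx0 : hf X L k d x₀ = 0 := hconj _ hx₃ _ hdp hx0d
  -- orthogonality to the primitive classes
  have a1 : ∀ v ∈ P', hf X L k x₀ (X.lef v) = 0 := by
    intro v hv
    have b1 := h v hv
    rw [hf_add_left] at b1
    have b2 : hf X L k d (X.lef v) = 0 := by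
      obtain ⟨hv1, hv2⟩ := mem_orth.1 (hP' hv)
      have hv3 := (mem_killed.1 hv1).1
      refine hconj _ (X.lef_mem hv3) _ hdp ?_
      obtain ⟨_, ⟨z, hz, rfl⟩, rfl⟩ := hdD
      rw [hf_lef hL.comm, ← lef_cube, hv2 _ ⟨z, hz, rfl⟩, neg_zero]
    rwa [b2, add_zero] at b1
  have a2 : ∀ r ∈ lowPart X L p q k, hf X L k x₀ (X.lef r) = 0 := by
    intro r hr
    obtain ⟨y, hy, _, ⟨w, hw, rfl⟩, rfl⟩ := Submodule.mem_sup.1 hr
    rw [map_add, hf_add_right, ← hL.comm, hf_succ_right, hf_dual_zero hL.cup hx₃ hx₄, add_zero]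
    refine hf_right_zero ?_ _
    rw [pow_lef hL.comm, (mem_killed.1 hy).2, map_zero]
  have a3 : ∀ v ∈ killed X L p q (k + 1), hf X L k x₀ (X.lef v) = 0 := by
    intro v hv
    rw [← (finrank_primTwo hL hk).2, ← hsup] at hv
    obtain ⟨u, hu, _, ⟨z, hz, rfl⟩, rfl⟩ := Submodule.mem_sup.1 hv
    obtain ⟨r, hr, v', hv', rfl⟩ := Submodule.mem_sup.1 hu
    rw [map_add, map_add, hf_add_right, hf_add_right, a2 r hr, a1 v' hv',
      hx₂ _ ⟨_, ⟨z, hz, rfl⟩, rfl⟩, add_zero, add_zero]
  have a6 : (L ^ k) (X.lef x₀) ∈ X.piece (p + 1 + (k + 1)) (q + 1 + (k + 1)) := by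
    have := pow_mem hL.cup (X.lef_mem hx₃) k
    rwa [show p + 1 + 1 + k = p + 1 + (k + 1) by ring,
      show q + 1 + 1 + k = q + 1 + (k + 1) by ring] at this
  have a4 := hL.zero (p + 1) (q + 1) k (by omega) x₀ hx₁
    (exists_image hL.cup (p := p + 1) (q := q + 1) (by omega) (by omega) a6
      fun z hz => orth_zero hL.cup hL.comm hx₃ z (a3 z hz))
  rw [hr_hf hL.cup hx₃] at a4
  have a5 : 0 ≤ sg (p + 1) (q + 1) * (hf X L k d d).re := by
    obtain ⟨_, ⟨z, hz, rfl⟩, rfl⟩ := hdD
    by_cases hz0 : z = 0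
    · have b1 := hf_smul_left (X := X) (w := L) (k := k) 0 0 0
      rw [zero_smul, zero_mul] at b1
      rw [hz0, map_zero, map_zero, b1]
      simp
    · rw [sg_succ]
      exact (four_pos hL hk hz hz0).le
  rw [bf_self, hf_add_left, hf_add_right, hf_add_right, hx0d, hdx0, add_zero, zero_add,
    Complex.add_re]
  linarith

/-- The boundary of the Hodge diamond. -/
theorem boundary (hL : DefectFour X L) {p q k : ℕ} (hk : p + q + k = n) (hpq : p = 0 ∨ q = 0) :
    ∃ M M' : Submodule ℂ X.H, M ≤ X.piece p q ∧ M' ≤ X.piece p q ∧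
      (∀ x ∈ M, x ≠ 0 → sg p q * bf X L k x x < 0) ∧
      (∀ x ∈ M', 0 ≤ sg p q * bf X L k x x) ∧
      finrank ℂ M + finrank ℂ M' = X.hodgeNumber p q ∧
      (finrank ℂ M' : ℤ) = alt X p q + finrank ℂ (killedBelow X L p q k) ∧
      (∀ x ∈ X.piece p q, (∀ y ∈ X.piece p q, sg p q * bf X L k x y = 0) → x ∈ M') := by
  have hB : ∀ j, killedBelow X L p q j = ⊥ := by
    intro j
    rcases p with _ | p
    · rfl
    rcases q with _ | q
    · rfl
    omega
  have hA : alt X p q = X.hodgeNumber p q := by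
    rcases p with _ | p
    · rfl
    rcases q with _ | q
    · rfl
    omega
  refine ⟨⊥, X.piece p q, bot_le, le_rfl, ?_, ?_, ?_, ?_, fun x hx _ => hx⟩
  · intro x hx hx0
    exact absurd ((Submodule.mem_bot ℂ).1 hx) hx0
  · intro x hx
    have h1 : x ∈ killed X L p q (k + 1) := by
      refine mem_killed.2 ⟨hx, ?_⟩
      exact X.piece_large (p := p + (k + 1)) (q := q + (k + 1)) (by omega) (pow_mem hL.cup hx _)
    have h3 : (L ^ k) (X.lef x) ∈ X.piece (p + (k + 1)) (q + (k + 1)) := by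
      have := pow_mem hL.cup (X.lef_mem hx) k
      rwa [show p + 1 + k = p + (k + 1) by ring, show q + 1 + k = q + (k + 1) by ring] at this
    have h2 := hL.zero p q k hk x h1
      ⟨0, Submodule.zero_mem _, by rw [map_zero, X.piece_large (by omega) h3]⟩
    rw [hr_hf hL.cup hx] at h2
    rw [bf_self]
    linarith
  · rw [finrank_bot, zero_add]
    rfl
  · rw [hB, finrank_bot, hA]
    simp [Twisted.hodgeNumber]

theorem neg_dim (hL : DefectFour X L) : ∀ (p q k : ℕ), p + q + k = n →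
    ∃ M M' : Submodule ℂ X.H, M ≤ X.piece p q ∧ M' ≤ X.piece p q ∧
      (∀ x ∈ M, x ≠ 0 → sg p q * bf X L k x x < 0) ∧
      (∀ x ∈ M', 0 ≤ sg p q * bf X L k x x) ∧
      finrank ℂ M + finrank ℂ M' = X.hodgeNumber p q ∧
      (finrank ℂ M' : ℤ) = alt X p q + finrank ℂ (killedBelow X L p q k) ∧
      (∀ x ∈ X.piece p q, (∀ y ∈ X.piece p q, sg p q * bf X L k x y = 0) → x ∈ M') := by
  intro p
  induction p with
  | zero => exact fun q k hk => boundary hL hk (Or.inl rfl)
  | succ p ih =>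
    intro q k hk
    rcases q with _ | q
    · exact boundary hL hk (Or.inr rfl)
    have hH := isHerm (X := X) (w := L) (k := k) (sg (p + 1) (q + 1))
    have hzero : ∀ y : X.H, sg (p + 1) (q + 1) * bf X L k 0 y = 0 := fun y => hH.zero_left y
    obtain ⟨M, M', hM, hM', neg, pos, hsum, hrad⟩ := exists_max_sub hH (X.piece (p + 1) (q + 1))
    obtain ⟨N, N', hN, hN', negN, posN, hsumN, hAN, hradN⟩ := ih q (k + 2) (by omega)
    have hk2 : p + q + k + 2 = n := by omega
    -- the classes killed by `L ^ (k + 1)`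
    let P : Submodule ℂ X.H := killed X L p q (k + 1)
    have hP : ∀ v ∈ P, v ∈ X.piece p q ∧ (L ^ (k + 1)) v = 0 := fun v hv => ⟨hv.1, hv.2⟩
    have hPN : P ≤ N' := by
      intro v hv
      refine hradN v (hP v hv).1 fun y _ => ?_
      have h0 : (L ^ (k + 2)) v = 0 := by
        rw [show k + 2 = (k + 1) + 1 from rfl, pow_succ' L (k + 1), Module.End.mul_apply,
          (hP v hv).2, map_zero]
      unfold bf
      rw [hf_dual_zero hL.cup (hP v hv).1 h0, hf_right_zero h0]
      simp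
    -- the part of lowest perversity and a complement
    have hRle := lowPart_le_primTwo (X := X) (L := L) (p := p) (q := q) (k := k) hL
    have hRd := finrank_lowPart (X := X) (L := L) (p := p) (q := q) (k := k) hL
    obtain ⟨hPd, -⟩ := finrank_primTwo hL hk2
    obtain ⟨E, hE⟩ := Submodule.exists_isCompl (lowPart X L p q k)
    let P' : Submodule ℂ X.H := primTwo X L p q k ⊓ E
    have hP'1 : P' ≤ primTwo X L p q k := inf_le_left
    have hP'P : P' ≤ P := hP'1.trans orth_le
    have hP'R : ∀ v ∈ P', v ∈ lowPart X L p q k → v = 0 := by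
      intro v hv hvR
      have : v ∈ lowPart X L p q k ⊓ E := ⟨hvR, hv.2⟩
      rwa [hE.inf_eq_bot, Submodule.mem_bot] at this
    have hsupR : lowPart X L p q k ⊔ P' = primTwo X L p q k := by
      have : lowPart X L p q k ⊔ E ⊓ primTwo X L p q k =
        (lowPart X L p q k ⊔ E) ⊓ primTwo X L p q k := (sup_inf_assoc_of_le E hRle).symm
      show lowPart X L p q k ⊔ primTwo X L p q k ⊓ E = primTwo X L p q k
      rw [inf_comm, this, hE.sup_eq_top, top_inf_eq]
    have hdimP : finrank ℂ (lowPart X L p q k) + finrank ℂ P' =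
        finrank ℂ (primTwo X L p q k) := by
      have h2 : lowPart X L p q k ⊓ P' = ⊥ := by
        rw [eq_bot_iff]
        rintro x ⟨hx1, hx2⟩
        rw [hP'R x hx2 hx1]
        exact Submodule.zero_mem _
      have h3 := Submodule.finrank_sup_add_finrank_inf_eq (lowPart X L p q k) P'
      rw [hsupR, h2, finrank_bot, add_zero] at h3
      exact h3.symm
    obtain ⟨C, hC⟩ := Submodule.exists_isCompl P
    let W : Submodule ℂ X.H := N' ⊓ C
    have hPW : P ⊔ W = N' := by
      have : P ⊔ C ⊓ N' = (P ⊔ C) ⊓ N' := (sup_inf_assoc_of_le C hPN).symm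
      show P ⊔ N' ⊓ C = N'
      rw [inf_comm, this, hC.sup_eq_top, top_inf_eq]
    have hPWd : P ⊓ W = ⊥ := by
      rw [eq_bot_iff]
      rintro x ⟨hx1, -, hx2⟩
      have : x ∈ P ⊓ C := ⟨hx1, hx2⟩
      rwa [hC.inf_eq_bot] at this
    have hdim : finrank ℂ P + finrank ℂ W = finrank ℂ N' := by
      have h1 := Submodule.finrank_sup_add_finrank_inf_eq P W
      rw [hPW, hPWd, finrank_bot, add_zero] at h1
      exact h1.symm
    -- mixed terms
    have hLmem : ∀ w ∈ X.piece p q, L w ∈ X.piece (p + 1) (q + 1) := fun w hw => hL.cup.mem hw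
    have hωmem : ∀ w ∈ X.piece p q, X.lef w ∈ X.piece (p + 1) (q + 1) :=
      fun w hw => X.lef_mem hw
    have hmixJ : ∀ w : X.H, ∀ v ∈ killed X L (p + 1) (q + 1) (k + 1),
        sg (p + 1) (q + 1) * bf X L k (L w) v = 0 := by
      intro w v hv
      obtain ⟨hv1, hv2⟩ := mem_killed.1 hv
      unfold bf
      rw [hf_succ_left hL.cup, hf_right_zero hv2, hf_succ_right, hf_dual_zero hL.cup hv1 hv2]
      simp
    have hmix : ∀ w : X.H, ∀ v ∈ P, sg (p + 1) (q + 1) * bf X L k (L w) (X.lef v) = 0 := by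
      intro w v hv
      refine hmixJ w _ (mem_killed.2 ⟨hωmem v (hP v hv).1, ?_⟩)
      rw [pow_lef hL.comm, (hP v hv).2, map_zero]
    have hωneg : ∀ v ∈ P', v ≠ 0 →
        sg (p + 1) (q + 1) * bf X L k (X.lef v) (X.lef v) < 0 := by
      intro v hv hv0
      rw [sg_succ]
      exact two_neg hL hk2 (hP'1 hv) fun h => hv0 (hP'R v hv h)
    have hLneg : ∀ w ∈ W, sg (p + 1) (q + 1) * bf X L k (L w) (L w) ≤ 0 := by
      intro w hw
      have h1 := posN w hw.1
      rw [bf_succ hL.cup, sg_succ]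
      linarith
    have key : ∀ w ∈ W, ∀ v ∈ P', (∀ y ∈ X.piece (p + 1) (q + 1),
        sg (p + 1) (q + 1) * bf X L k (L w + X.lef v) y = 0) → w = 0 ∧ v = 0 := by
      intro w hw v hv h
      have hv0 : v = 0 := by
        by_contra hv0
        have h1 := h _ (hωmem v (hP v (hP'P hv)).1)
        have h2 := hH.add (L w) (X.lef v) (X.lef v)
        rw [h2, hmix w v (hP'P hv), zero_add] at h1
        have h3 := hωneg v hv hv0
        linarith
      refine ⟨?_, hv0⟩
      rw [hv0, map_zero, add_zero] at h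
      have h1 : (L ^ k) (L w) = 0 := by
        refine pow_eq_zero hL.cup hk (hLmem w (hN' hw.1)) fun y hy => ?_
        exact (mul_eq_zero.mp (h y hy)).resolve_left (sg_ne (p + 1) (q + 1))
      rw [← Module.End.mul_apply, ← pow_succ] at h1
      have h2 : w ∈ P ⊓ W := ⟨⟨hN' hw.1, h1⟩, hw⟩
      rw [hPWd, Submodule.mem_bot] at h2
      exact h2
    let S₁ : Submodule ℂ X.H := Submodule.map L W
    let S₂ : Submodule ℂ X.H := Submodule.map X.lef P'
    have hd1 : finrank ℂ S₁ = finrank ℂ W := by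
      refine finrank_map_of_inj _ _ fun w hw h0 => (key w hw 0 P'.zero_mem fun y _ => ?_).1
      rw [h0, map_zero, add_zero]
      exact hzero y
    have hd2 : finrank ℂ S₂ = finrank ℂ P' := by
      refine finrank_map_of_inj _ _ fun v hv h0 => (key 0 W.zero_mem v hv fun y _ => ?_).2
      rw [h0, map_zero, add_zero]
      exact hzero y
    have hd3 : S₁ ⊓ S₂ = ⊥ := by
      rw [eq_bot_iff]
      rintro _ ⟨⟨w, hw, rfl⟩, ⟨v, hv, hvw⟩⟩
      have h1 := (key w hw (-v) (P'.neg_mem hv) fun y _ => by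
        rw [map_neg, hvw, add_neg_cancel]
        exact hzero y).1
      rw [Submodule.mem_bot, h1, map_zero]
    have hdS : finrank ℂ (S₁ ⊔ S₂ : Submodule ℂ X.H) = finrank ℂ W + finrank ℂ P' := by
      have h1 := Submodule.finrank_sup_add_finrank_inf_eq S₁ S₂
      rw [hd3, finrank_bot, add_zero, hd1, hd2] at h1
      omega
    have hS : ∀ x ∈ S₁ ⊔ S₂, ∃ w ∈ W, ∃ v ∈ P', x = L w + X.lef v := by
      intro x hx
      rw [Submodule.mem_sup] at hx
      obtain ⟨_, ⟨w, hw, rfl⟩, _, ⟨v, hv, rfl⟩, rfl⟩ := hx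
      exact ⟨w, hw, v, hv, rfl⟩
    have hfin := semi_sub hH (X.piece (p + 1) (q + 1)) M' (S₁ ⊔ S₂) ⊥ hM'
      (by
        intro x hx
        obtain ⟨w, hw, v, hv, rfl⟩ := hS x hx
        exact Submodule.add_mem _ (hLmem w (hN' hw.1)) (hωmem v (hP v (hP'P hv)).1))
      pos
      (by
        intro x hx
        obtain ⟨w, hw, v, hv, rfl⟩ := hS x hx
        have h1 := hH.add (L w) (X.lef v) (L w + X.lef v)
        have h2 := hH.add_right (L w) (L w) (X.lef v)
        have h3 := hH.add_right (X.lef v) (L w) (X.lef v)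
        have h4 := hH.symm (X.lef v) (L w)
        rw [h1, h2, h3, h4, hmix w v (hP'P hv)]
        have h5 := hLneg w hw
        have h6 : sg (p + 1) (q + 1) * bf X L k (X.lef v) (X.lef v) ≤ 0 := by
          by_cases hv0 : v = 0
          · rw [hv0, map_zero, hzero]
          · exact (hωneg v hv hv0).le
        linarith)
      (by
        intro x hx hxy
        obtain ⟨w, hw, v, hv, rfl⟩ := hS x hx
        obtain ⟨h1, h2⟩ := key w hw v hv hxy
        rw [h1, h2, map_zero, map_zero, add_zero]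
        exact Submodule.zero_mem _)
    rw [hdS, finrank_bot, add_zero] at hfin
    -- the nonnegative subspace
    let J := killed X L (p + 1) (q + 1) (k + 1)
    let J₀ := orth L k J (P'.map X.lef)
    have hJ₀ : ∀ x ∈ J₀, 0 ≤ sg (p + 1) (q + 1) * bf X L k x x := by
      intro x hx
      obtain ⟨hx1, hx2⟩ := mem_orth.1 hx
      exact zero_pos hL hk2 hP'1 hsupR hx1 fun v hv => hx2 _ ⟨v, hv, rfl⟩
    have hJ₁ := finrank_orth L k J (P'.map X.lef)
    rw [show finrank ℂ (P'.map X.lef) = finrank ℂ P' from hd2] at hJ₁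
    have hJd := finrank_prim hL hk2
    have hN0 : ∀ y ∈ N, (L ^ (k + 2)) y = 0 → y = 0 := by
      intro y hy h0
      by_contra hy0
      have h1 := negN y hy hy0
      rw [bf_self, hf_right_zero h0] at h1
      simp at h1
    have hNL : finrank ℂ (N.map L) = finrank ℂ N := by
      refine finrank_map_of_inj _ _ fun y hy h0 => hN0 y hy ?_
      rw [pow_succ L (k + 1), Module.End.mul_apply, h0, map_zero]
    have hNJ : N.map L ⊓ J₀ = ⊥ := by
      rw [eq_bot_iff]
      rintro _ ⟨⟨y, hy, rfl⟩, hx⟩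
      have h1 := (mem_killed.1 (mem_orth.1 hx).1).2
      rw [← Module.End.mul_apply, ← pow_succ] at h1
      rw [hN0 y hy h1, map_zero]
      exact Submodule.zero_mem _
    have hU := Submodule.finrank_sup_add_finrank_inf_eq (N.map L) J₀
    rw [hNJ, finrank_bot, add_zero, hNL] at hU
    have hUpos : ∀ x ∈ N.map L ⊔ J₀, 0 ≤ sg (p + 1) (q + 1) * bf X L k x x := by
      intro x hx
      obtain ⟨_, ⟨y, hy, rfl⟩, v, hv, rfl⟩ := Submodule.mem_sup.1 hx
      have h1 := hH.add (L y) v (L y + v)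
      have h2 := hH.add_right (L y) (L y) v
      have h3 := hH.add_right v (L y) v
      have h4 := hH.symm v (L y)
      rw [h1, h2, h3, h4, hmixJ y v (mem_orth.1 hv).1]
      have h5 : 0 ≤ sg (p + 1) (q + 1) * bf X L k (L y) (L y) := by
        rw [bf_succ hL.cup, sg_succ]
        by_cases hy0 : y = 0
        · have := (isHerm (X := X) (w := L) (k := k + 2) (sg p q)).zero_left 0
          rw [hy0]
          linarith
        · have := negN y hy hy0
          linarith
      have h6 := hJ₀ v hv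
      linarith
    have hUT : N.map L ⊔ J₀ ≤ X.piece (p + 1) (q + 1) := by
      refine sup_le ?_ (orth_le.trans inf_le_left)
      rintro _ ⟨y, hy, rfl⟩
      exact hLmem y (hN hy)
    have hMU : M ⊓ (N.map L ⊔ J₀) = ⊥ := by
      rw [eq_bot_iff]
      rintro x ⟨hx1, hx2⟩
      rw [Submodule.mem_bot]
      by_contra hx0
      have h1 := neg x hx1 hx0
      have h2 := hUpos x hx2
      linarith
    have hMU2 := Submodule.finrank_sup_add_finrank_inf_eq M (N.map L ⊔ J₀)
    rw [hMU, finrank_bot, add_zero] at hMU2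
    have hMU3 := Submodule.finrank_mono (sup_le hM hUT)
    refine ⟨M, M', hM, hM', neg, pos, hsum, ?_, hrad⟩
    have hA : alt X (p + 1) (q + 1) = X.hodgeNumber (p + 1) (q + 1) - alt X p q := rfl
    have hB : killedBelow X L (p + 1) (q + 1) k = killed X L p q k := rfl
    have hT : finrank ℂ (X.piece (p + 1) (q + 1)) = X.hodgeNumber (p + 1) (q + 1) := rfl
    have hPe : finrank ℂ P = finrank ℂ (killed X L p q (k + 1)) := rfl
    have hJe : finrank ℂ J = finrank ℂ (killed X L (p + 1) (q + 1) (k + 1)) := rfl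
    have hJ0e : finrank ℂ J₀ = finrank ℂ (orth L k J (P'.map X.lef)) := rfl
    rw [hT] at hsum hfin hMU3
    rw [hB, hA]
    omega

end Pool.Agent.R929.OE
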