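import Pool.Agent.R929.OE.Basic

/-!
# The Hodge numbers
-/

namespace Pool.Agent.R929.OE

open Module Finset Pool.Agent.TH125.Tw Pool.Agent.R929.OD

variable {n : ℕ} {X Y : Twisted n} {L : Module.End ℂ X.H} {L' : Module.End ℂ Y.H}

/-- The spaces of the classes `x` of type `(p, q)` with `L ^ k x = 0`, `p + q + k + 2 = n`, have the
same dimensions. -/
def SameNullities (X Y : Twisted n) (L : Module.End ℂ X.H) (L' : Module.End ℂ Y.H) : Prop :=
  ∀ p q k : ℕ, p + q + k + 2 = n → finrank ℂ (killed X L p q k) = finrank ℂ (killed Y L' p q k)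

theorem SameNullities.below (h : SameNullities X Y L L') {p q k : ℕ} (hk : p + q + k = n) :
    finrank ℂ (killedBelow X L p q k) = finrank ℂ (killedBelow Y L' p q k) := by
  rcases p with _ | p
  · have h1 : killedBelow X L 0 q k = ⊥ := rfl
    have h2 : killedBelow Y L' 0 q k = ⊥ := rfl
    rw [h1, h2, finrank_bot, finrank_bot]
  rcases q with _ | q
  · have h1 : killedBelow X L (p + 1) 0 k = ⊥ := rfl
    have h2 : killedBelow Y L' (p + 1) 0 k = ⊥ := rfl
    rw [h1, h2, finrank_bot, finrank_bot]
  exact h p q k (by omega)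

theorem basic_eq (hX : DefectFour X L) (hY : DefectFour Y L') (Φ : Transform X Y)
    (hΦ : Intertwines Φ L L') (hN : SameNullities X Y L L') {a b s₀ κ : ℕ} (hab : a = 0 ∨ b = 0)
    (hn : a + b + 2 * s₀ + κ = n) :
    (finrank ℂ (X.low (a + (s₀ + 1)) (b + (s₀ + 1)) (s₀ + κ)) : ℤ) + alt X (a + s₀) (b + s₀) =
      finrank ℂ (Y.low (a + (s₀ + 1)) (b + (s₀ + 1)) (s₀ + κ)) + alt Y (a + s₀) (b + s₀) := by
  have h1 := basic hX hY Φ hΦ hab hn
  have h2 := basic hY hX (symm Φ) hΦ.symm hab hn
  have h3 := hN.below (p := a + s₀) (q := b + s₀) (k := κ) (by omega)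
  rw [h3] at h1 h2
  omega

theorem lower (hX : DefectFour X L) (hY : DefectFour Y L') (Φ : Transform X Y)
    (hΦ : Intertwines Φ L L') (hN : SameNullities X Y L L') {a b t : ℕ} (hab : a = 0 ∨ b = 0)
    (ht : a + b + t = n) :
    ∀ s, 2 * s + 2 ≤ t → X.hodgeNumber (a + s) (b + s) = Y.hodgeNumber (a + s) (b + s) := by
  intro s
  induction s using Nat.strong_induction_on with
  | _ s ih =>
    intro hs
    obtain ⟨κ, hκ⟩ : ∃ κ, t = 2 * (s + 1) + κ := ⟨t - 2 * (s + 1), by omega⟩
    have h1 := basic_eq hX hY Φ hΦ hN (s₀ := s + 1) (κ := κ) hab (by omega)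
    have h2 := column_sum Φ hab ht
    have hone : ∀ Z : Twisted n, finrank ℂ (Z.low (a + (s + 1)) (b + (s + 1)) 1) =
        Z.hodgeNumber (a + (s + 1)) (b + (s + 1)) := by
      intro Z
      rw [Z.finrank_low]
      simp
    have hsplit : ∀ Z : Twisted n, finrank ℂ (Z.low a b (t + 1)) =
        finrank ℂ (Z.low a b (s + 1)) + (Z.hodgeNumber (a + (s + 1)) (b + (s + 1)) +
          finrank ℂ (Z.low (a + (s + 1 + 1)) (b + (s + 1 + 1)) (s + 1 + κ))) := by
      intro Z
      have e1 : t + 1 = (s + 1) + (1 + (s + 1 + κ)) := by omega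
      rw [e1, low_add Z a b (s + 1), low_add Z (a + (s + 1)) (b + (s + 1)) 1, hone]
      rfl
    rw [← X.finrank_low, ← Y.finrank_low, hsplit, hsplit] at h2
    have hsum : ∀ Z : Twisted n, finrank ℂ (Z.low a b (s + 1)) =
        (∑ j ∈ range s, Z.hodgeNumber (a + j) (b + j)) + Z.hodgeNumber (a + s) (b + s) := by
      intro Z
      rw [Z.finrank_low, Finset.sum_range_succ]
    have hS : ∑ j ∈ range s, X.hodgeNumber (a + j) (b + j) =
        ∑ j ∈ range s, Y.hodgeNumber (a + j) (b + j) :=
      Finset.sum_congr rfl fun j hj => by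
        rw [mem_range] at hj
        exact ih j hj (by omega)
    have e : ∀ Z : Twisted n, alt Z (a + (s + 1)) (b + (s + 1)) =
      Z.hodgeNumber (a + (s + 1)) (b + (s + 1)) - alt Z (a + s) (b + s) := fun Z => rfl
    rw [e, e] at h1
    rw [hsum, hsum, hS] at h2
    -- the alternating sum at `s`
    have hA : alt X (a + s) (b + s) - X.hodgeNumber (a + s) (b + s) =
        alt Y (a + s) (b + s) - Y.hodgeNumber (a + s) (b + s) := by
      rcases s with _ | s
      · have e0 : ∀ Z : Twisted n, alt Z (a + 0) (b + 0) = Z.hodgeNumber (a + 0) (b + 0) := by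
          intro Z
          rcases hab with rfl | rfl
          · rw [Nat.add_zero]
            rfl
          · rcases a with _ | a
            · rfl
            · rfl
        rw [e0, e0, sub_self, sub_self]
      · have e1 : ∀ Z : Twisted n, alt Z (a + (s + 1)) (b + (s + 1)) =
          Z.hodgeNumber (a + (s + 1)) (b + (s + 1)) - alt Z (a + s) (b + s) := fun Z => rfl
        rw [e1, e1, alt_congr (X := X) (Y := Y) hab s fun j hj => ih j (by omega) (by omega)]
        ring
    omega

/-- **Main theorem on Hodge numbers.** -/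
theorem main (hX : DefectFour X L) (hY : DefectFour Y L') (Φ : Transform X Y)
    (hΦ : Intertwines Φ L L') (hN : SameNullities X Y L L') (p q : ℕ) :
    X.hodgeNumber p q = Y.hodgeNumber p q := by
  by_cases hpq : n < p ∨ n < q
  · rw [X.hodge_large hpq, Y.hodge_large hpq]
  push Not at hpq
  have key : ∀ a b t s : ℕ, (a = 0 ∨ b = 0) → a + b + t = n → s ≤ t →
      X.hodgeNumber (a + s) (b + s) = Y.hodgeNumber (a + s) (b + s) := by
    intro a b t s hab ht hst
    have hlow := lower hX hY Φ hΦ hN hab ht
    have hsym : ∀ (Z : Twisted n) (s : ℕ), s ≤ t → Z.hodgeNumber (a + s) (b + s) =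
        Z.hodgeNumber (a + (t - s)) (b + (t - s)) := fun Z s hs =>
      Z.dim_eq (by omega) (by omega)
    have hfar : ∀ s ≤ t, (2 * s + 2 ≤ t ∨ t + 2 ≤ 2 * s) →
        X.hodgeNumber (a + s) (b + s) = Y.hodgeNumber (a + s) (b + s) := by
      intro s hs h
      rcases h with h | h
      · exact hlow s h
      · rw [hsym X s hs, hsym Y s hs]
        exact hlow (t - s) (by omega)
    by_cases h : 2 * s + 2 ≤ t ∨ t + 2 ≤ 2 * s
    · exact hfar s hst h
    push Not at h
    have htot := column_sum Φ hab ht
    have htot' : ∑ j ∈ range (t + 1), ((X.hodgeNumber (a + j) (b + j) : ℤ) -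
        Y.hodgeNumber (a + j) (b + j)) = 0 := by
      rw [Finset.sum_sub_distrib, sub_eq_zero]
      exact_mod_cast htot
    by_cases h0 : t = 2 * s
    · rw [Finset.sum_eq_single s] at htot'
      · omega
      · intro j hj hjs
        rw [mem_range] at hj
        rw [hfar j (by omega) (by omega), sub_self]
      · intro h1
        exact absurd (mem_range.2 (by omega)) h1
    · have hsy := hsym X s hst
      have hsy' := hsym Y s hst
      rw [Finset.sum_eq_add s (t - s) (by omega)] at htot'
      · rw [← hsy, ← hsy'] at htot'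
        omega
      · intro j hj hjs
        rw [mem_range] at hj
        rw [hfar j (by omega) (by omega), sub_self]
      · intro h1
        exact absurd (mem_range.2 (by omega)) h1
      · intro h1
        exact absurd (mem_range.2 (by omega)) h1
  obtain ⟨h1, h2⟩ := hpq
  rcases Nat.le_total p q with h | h
  · have := key 0 (q - p) (n - (q - p)) p (Or.inl rfl) (by omega) (by omega)
    rwa [zero_add, Nat.sub_add_cancel h] at this
  · have := key (p - q) 0 (n - (p - q)) q (Or.inr rfl) (by omega) (by omega)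
    rwa [zero_add, Nat.sub_add_cancel h] at this

/-- The Hodge numbers agree if and only if the nullities do. -/
theorem main_iff (hX : DefectFour X L) (hY : DefectFour Y L') (Φ : Transform X Y)
    (hΦ : Intertwines Φ L L') :
    (∀ p q, X.hodgeNumber p q = Y.hodgeNumber p q) ↔ SameNullities X Y L L' := by
  refine ⟨fun h => ?_, fun hN p q => main hX hY Φ hΦ hN p q⟩
  have key : ∀ a b s k : ℕ, (a = 0 ∨ b = 0) → a + s + (b + s) + k + 2 = n →
      finrank ℂ (killed X L (a + s) (b + s) k) = finrank ℂ (killed Y L' (a + s) (b + s) k) := by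
    intro a b s k hab hk
    have h1 := basic hX hY Φ hΦ (s₀ := s + 1) (κ := k) hab (by omega)
    have h2 := basic hY hX (symm Φ) hΦ.symm (s₀ := s + 1) (κ := k) hab (by omega)
    have h3 := alt_congr (X := X) (Y := Y) hab (s + 1) fun j _ => h _ _
    have h4 : finrank ℂ (X.low (a + (s + 1 + 1)) (b + (s + 1 + 1)) (s + 1 + k)) =
        finrank ℂ (Y.low (a + (s + 1 + 1)) (b + (s + 1 + 1)) (s + 1 + k)) := by
      rw [X.finrank_low, Y.finrank_low]
      exact Finset.sum_congr rfl fun j _ => h _ _
    have e1 : killedBelow X L (a + (s + 1)) (b + (s + 1)) k = killed X L (a + s) (b + s) k := rfl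
    have e2 : killedBelow Y L' (a + (s + 1)) (b + (s + 1)) k = killed Y L' (a + s) (b + s) k := rfl
    rw [e1, e2, h3, h4] at h1 h2
    omega
  intro p q k hk
  rcases Nat.le_total p q with h1 | h1
  · have := key 0 (q - p) p k (Or.inl rfl) (by omega)
    rwa [zero_add, Nat.sub_add_cancel h1] at this
  · have := key (p - q) 0 q k (Or.inr rfl) (by omega)
    rwa [zero_add, Nat.sub_add_cancel h1] at this

end Pool.Agent.R929.OE
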