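import Pool.Agent.R929.OE.Defs

/-!
# The spaces of primitive classes
-/

open scoped ComplexConjugate

namespace Pool.Agent.R929.OE

open Module Finset Pool.Agent.TH125.Tw Pool.Agent.R929.OD
open Pool.Agent.W539.DI (finrank_map_of_inj)
open Pool.Agent.R929.DH (IsHerm)

variable {n : ℕ} {X : Twisted n} {L : Module.End ℂ X.H}

theorem below_killed {p q k : ℕ} {z : X.H} (hz : z ∈ killedBelow X L p q k) :
    z = 0 ∨ ∃ p' q', p = p' + 1 ∧ q = q' + 1 ∧ z ∈ killed X L p' q' k := by
  rcases p with _ | p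
  · exact Or.inl ((Submodule.mem_bot ℂ).1 hz)
  rcases q with _ | q
  · exact Or.inl ((Submodule.mem_bot ℂ).1 hz)
  exact Or.inr ⟨p, q, rfl, rfl, hz⟩

theorem below_of {p q k j : ℕ} {z : X.H} (hz : z ∈ killedBelow X L p q k) (h : (L ^ j) z = 0) :
    z ∈ killedBelow X L p q j := by
  rcases p with _ | p
  · exact hz
  rcases q with _ | q
  · exact hz
  exact ⟨hz.1, h⟩

theorem below_mono {p q k : ℕ} : killedBelow X L p q k ≤ killedBelow X L p q (k + 1) := by
  intro z hz
  refine below_of hz ?_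
  rcases below_killed hz with rfl | ⟨p', q', -, -, h⟩
  · exact map_zero _
  · exact (killed_mono h).2

/-- The part of perversity less than `-2`. -/
def lowPart (X : Twisted n) (L : Module.End ℂ X.H) (p q k : ℕ) : Submodule ℂ X.H :=
  killed X L p q k ⊔ (killedBelow X L p q (k + 2)).map L

theorem lowPart_le (hL : DefectFour X L) {p q k : ℕ} :
    lowPart X L p q k ≤ killed X L p q (k + 1) := by
  refine sup_le killed_mono ?_
  rintro _ ⟨x, hx, rfl⟩
  obtain ⟨h1, -, h2⟩ := below_mem hL.cup hx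
  refine mem_killed.2 ⟨h1, ?_⟩
  rw [← Module.End.mul_apply, ← pow_succ]
  exact h2

theorem finrank_lowPart (hL : DefectFour X L) {p q k : ℕ} :
    finrank ℂ (lowPart X L p q k) + finrank ℂ (killedBelow X L p q (k + 1)) =
      finrank ℂ (killed X L p q k) + finrank ℂ (killedBelow X L p q (k + 2)) := by
  have h1 := Submodule.finrank_sup_add_finrank_inf_eq (killed X L p q k)
    ((killedBelow X L p q (k + 2)).map L)
  have h2 : killed X L p q k ⊓ (killedBelow X L p q (k + 2)).map L =
      (killedBelow X L p q (k + 1)).map L := by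
    ext x
    constructor
    · rintro ⟨hx, ⟨z, hz, rfl⟩⟩
      have h3 := (mem_killed.1 hx).2
      rw [← Module.End.mul_apply, ← pow_succ] at h3
      exact ⟨z, below_of hz h3, rfl⟩
    · rintro ⟨z, hz, rfl⟩
      refine ⟨mem_killed.2 ⟨(below_mem hL.cup hz).1, ?_⟩, ⟨z, below_mono hz, rfl⟩⟩
      rw [← Module.End.mul_apply, ← pow_succ]
      exact (below_mem hL.cup hz).2.2
  have h3 := finrank_map_ker L (killedBelow X L p q (k + 2))
  have h4 := finrank_map_ker L (killedBelow X L p q (k + 1))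
  have h5 : killedBelow X L p q (k + 2) ⊓ LinearMap.ker L =
      killedBelow X L p q (k + 1) ⊓ LinearMap.ker L := by
    apply le_antisymm
    · rintro z ⟨hz1, hz2⟩
      have hz3 : L z = 0 := hz2
      refine ⟨below_of hz1 ?_, hz2⟩
      rw [pow_succ, Module.End.mul_apply, hz3, map_zero]
    · exact inf_le_inf_right _ below_mono
  rw [h2] at h1
  rw [h5] at h3
  unfold lowPart
  omega

/-- The classes of perversity `-4`. -/
theorem four_pos (hL : DefectFour X L) {p q k : ℕ} (hk : p + q + k + 2 = n) {z : X.H}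
    (hz : z ∈ killedBelow X L p q (k + 1)) (hz0 : z ≠ 0) :
    0 < sg p q * (hf X L k (X.lef (X.lef z)) (X.lef (X.lef z))).re := by
  rcases below_killed hz with h | ⟨p', q', rfl, rfl, h⟩
  · exact absurd h hz0
  · have h1 := hL.four p' q' k (by omega) z h hz0
    rw [hr_four hL.cup hL.comm (mem_killed.1 h).1] at h1
    rw [sg_succ]
    exact h1

theorem lef_cube (x : X.H) : (X.lef ^ 3) x = X.lef (X.lef (X.lef x)) := by
  rw [show (3 : ℕ) = 1 + 1 + 1 from rfl, pow_add, pow_add, pow_one]
  rfl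

/-- The primitive classes of perversity at most `-2`. -/
def primTwo (X : Twisted n) (L : Module.End ℂ X.H) (p q k : ℕ) : Submodule ℂ X.H :=
  orth L k (killed X L p q (k + 1)) ((killedBelow X L p q (k + 1)).map (X.lef ^ 3))

theorem lef_below_le (hL : DefectFour X L) {p q k : ℕ} :
    (killedBelow X L p q (k + 1)).map X.lef ≤ killed X L p q (k + 1) := by
  rintro _ ⟨z, hz, rfl⟩
  obtain ⟨-, h1, h2⟩ := below_mem hL.cup hz
  refine mem_killed.2 ⟨h1, ?_⟩
  rw [pow_lef hL.comm, h2, map_zero]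

theorem finrank_primTwo (hL : DefectFour X L) {p q k : ℕ} (hk : p + q + k + 2 = n) :
    finrank ℂ (primTwo X L p q k) + finrank ℂ (killedBelow X L p q (k + 1)) =
      finrank ℂ (killed X L p q (k + 1)) ∧
    primTwo X L p q k ⊔ (killedBelow X L p q (k + 1)).map X.lef = killed X L p q (k + 1) := by
  have hinj : ∀ z ∈ killedBelow X L p q (k + 1), X.lef z = 0 → z = 0 := by
    intro z hz h0
    by_contra hz0
    have h1 := four_pos hL hk hz hz0
    have h2 := hf_smul_left (X := X) (w := L) (k := k) 0 0 0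
    rw [zero_smul, zero_mul] at h2
    rw [h0, map_zero, h2] at h1
    simp at h1
  have h1 : finrank ℂ ((killedBelow X L p q (k + 1)).map X.lef) =
      finrank ℂ (killedBelow X L p q (k + 1)) := finrank_map_of_inj _ _ hinj
  have h2 : primTwo X L p q k ⊓ (killedBelow X L p q (k + 1)).map X.lef = ⊥ := by
    rw [eq_bot_iff]
    rintro _ ⟨hx, ⟨z, hz, rfl⟩⟩
    rw [Submodule.mem_bot]
    by_contra h0
    have hz0 : z ≠ 0 := by
      rintro rfl
      exact h0 (map_zero _)
    have h3 := (mem_orth.1 hx).2 _ ⟨z, hz, rfl⟩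
    rw [lef_cube] at h3
    have h4 := four_pos hL hk hz hz0
    rw [hf_lef hL.comm, h3] at h4
    simp at h4
  have h3 := finrank_orth L k (killed X L p q (k + 1))
    ((killedBelow X L p q (k + 1)).map (X.lef ^ 3))
  have h4 := finrank_map_ker (X.lef ^ 3) (killedBelow X L p q (k + 1))
  have h5 := Submodule.finrank_sup_add_finrank_inf_eq (primTwo X L p q k)
    ((killedBelow X L p q (k + 1)).map X.lef)
  rw [h2, finrank_bot, add_zero, h1] at h5
  have h6 : primTwo X L p q k ⊔ (killedBelow X L p q (k + 1)).map X.lef ≤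
    killed X L p q (k + 1) := sup_le orth_le (lef_below_le hL)
  have h7 := Submodule.finrank_mono h6
  have h8 : finrank ℂ (primTwo X L p q k) =
    finrank ℂ (orth L k (killed X L p q (k + 1))
      ((killedBelow X L p q (k + 1)).map (X.lef ^ 3))) := rfl
  have h9 : finrank ℂ (primTwo X L p q k ⊔ (killedBelow X L p q (k + 1)).map X.lef :
    Submodule ℂ X.H) = finrank ℂ (killed X L p q (k + 1)) := by omega
  exact ⟨by omega, Submodule.eq_of_le_of_finrank_eq h6 h9⟩

theorem hf_dual_zero (hL : IsCupProduct X.toGradedForm L) {p q k : ℕ} {x : X.H}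
    (hx : x ∈ X.piece p q) (h : (L ^ k) x = 0) (y : X.H) : hf X L k x y = 0 := by
  rw [hf_hom hx, ← pow_form hL, h, map_zero, LinearMap.zero_apply, mul_zero]

theorem hf_right_zero {k : ℕ} {y : X.H} (h : (L ^ k) y = 0) (x : X.H) : hf X L k x y = 0 := by
  unfold hf
  rw [h, map_zero]

theorem lowPart_le_primTwo (hL : DefectFour X L) {p q k : ℕ} :
    lowPart X L p q k ≤ primTwo X L p q k := by
  intro x hx
  refine mem_orth.2 ⟨lowPart_le hL hx, ?_⟩
  rintro _ ⟨z, hz, rfl⟩
  obtain ⟨y, hy, _, ⟨w, hw, rfl⟩, rfl⟩ := Submodule.mem_sup.1 hx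
  rw [hf_add_left, hf_dual_zero hL.cup (mem_killed.1 hy).1 (mem_killed.1 hy).2, zero_add,
    hf_succ_left hL.cup, hf_right_zero, neg_zero]
  rw [lef_cube, pow_lef hL.comm, pow_lef hL.comm, pow_lef hL.comm, (below_mem hL.cup hz).2.2,
    map_zero, map_zero, map_zero]

theorem two_neg (hL : DefectFour X L) {p q k : ℕ} (hk : p + q + k + 2 = n) {v : X.H}
    (hv : v ∈ primTwo X L p q k) (hv0 : v ∉ lowPart X L p q k) :
    sg p q * bf X L k (X.lef v) (X.lef v) < 0 := by
  obtain ⟨h1, h2⟩ := mem_orth.1 hv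
  have h3 := (mem_killed.1 h1).1
  have h5 : (L ^ k) ((X.lef ^ 3) v) ∈ X.piece (p + 2 + (k + 1)) (q + 2 + (k + 1)) := by
    have := pow_mem hL.cup (pow_mem X.lef_cup h3 3) k
    rwa [show p + 3 + k = p + 2 + (k + 1) by ring, show q + 3 + k = q + 2 + (k + 1) by ring] at this
  rcases hL.two p q k hk v h1 (exists_image hL.cup (p := p) (q := q) (by omega) (by omega) h5
    fun z hz => orth_two hL.cup hL.comm h3 z (h2 _ ⟨z, hz, rfl⟩)) with h4 | ⟨y, hy, z, hz, rfl⟩
  · rw [hr_two hL.cup hL.comm h3] at h4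
    rw [bf_self]
    linarith
  · exact absurd (Submodule.add_mem_sup hy (Submodule.mem_map_of_mem hz)) hv0

/-- The dimension of the space of primitive classes. -/
theorem finrank_prim (hL : DefectFour X L) {p q k : ℕ} (hk : p + q + k + 2 = n) :
    X.hodgeNumber (p + 1) (q + 1) + finrank ℂ (killed X L p q (k + 1)) ≤
      finrank ℂ (killed X L (p + 1) (q + 1) (k + 1)) + X.hodgeNumber p q := by
  obtain ⟨C, hC⟩ := Submodule.exists_isCompl (killed X L p q (k + 1))
  have hP : killed X L p q (k + 1) ≤ X.piece p q := inf_le_left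
  have h1 : killed X L p q (k + 1) ⊔ X.piece p q ⊓ C = X.piece p q := by
    have : killed X L p q (k + 1) ⊔ C ⊓ X.piece p q =
      (killed X L p q (k + 1) ⊔ C) ⊓ X.piece p q := (sup_inf_assoc_of_le C hP).symm
    rw [inf_comm, this, hC.sup_eq_top, top_inf_eq]
  have h2 : killed X L p q (k + 1) ⊓ (X.piece p q ⊓ C) = ⊥ := by
    rw [eq_bot_iff]
    rintro x ⟨hx1, -, hx2⟩
    have : x ∈ killed X L p q (k + 1) ⊓ C := ⟨hx1, hx2⟩
    rwa [hC.inf_eq_bot] at this
  have h3 := Submodule.finrank_sup_add_finrank_inf_eq (killed X L p q (k + 1)) (X.piece p q ⊓ C)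
  rw [h1, h2, finrank_bot, add_zero] at h3
  have h4 := finrank_orth L (k + 1) (X.piece (p + 1) (q + 1)) (X.piece p q ⊓ C)
  have h5 : orth L (k + 1) (X.piece (p + 1) (q + 1)) (X.piece p q ⊓ C) ≤
      killed X L (p + 1) (q + 1) (k + 1) := by
    intro x hx
    obtain ⟨hx1, hx2⟩ := mem_orth.1 hx
    refine mem_killed.2 ⟨hx1, ?_⟩
    have h6 : ∀ y ∈ X.piece p q, hf X L (k + 1) x y = 0 := by
      intro y hy
      rw [← h1] at hy
      obtain ⟨u, hu, v, hv, rfl⟩ := Submodule.mem_sup.1 hy
      rw [hf_add_right, hx2 v hv, add_zero, hf_right_zero (mem_killed.1 hu).2]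
    refine X.form_nondeg _ fun y => ?_
    refine X.ind (P := fun y => X.form ((L ^ (k + 1)) x) y = 0) (map_zero _) ?_ ?_ y
    · intro a b ha hb
      rw [map_add, ha, hb, add_zero]
    · intro p' q' y hy
      by_cases hpq : (p + 1 + (k + 1) + q', q + 1 + (k + 1) + p') = (n, n)
      · have e1 := congrArg Prod.fst hpq
        have e2 := congrArg Prod.snd hpq
        simp only at e1 e2
        have e3 : p' = p := by omega
        have e4 : q' = q := by omega
        rw [e3, e4] at hy
        have h7 := h6 y hy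
        rw [hf_hom hx1] at h7
        rw [pow_form hL.cup]
        exact (mul_eq_zero.mp h7).resolve_left (pow_ne_zero _ Complex.I_ne_zero)
      · exact X.form_zero (pow_mem hL.cup hx1 (k + 1)) hy hpq
  have h6 := Submodule.finrank_mono h5
  have h7 : finrank ℂ (X.piece (p + 1) (q + 1)) = X.hodgeNumber (p + 1) (q + 1) := rfl
  have h8 : finrank ℂ (X.piece p q) = X.hodgeNumber p q := rfl
  omega

end Pool.Agent.R929.OE
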